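import Pool.Agent.Lib.UDGConv.Defs

/-! Writing a structured label as a bit string (module of `UDGConv`). -/

namespace UDGConv

/-- The numbers of a label in the order in which they are written. With `i = 4 + c * (3 + 2 * w) + j`,
`j < 3 + 2 * w`: `j = 0, 1, 2` are `lo c, hi c, vv c`; `j = 3 + 2 l`: `s1 c l`; `j = 4 + 2 l`:
`s2 c l`. -/
def Lab.seq (w : ℕ) (a : Lab) (i : ℕ) : ℕ :=
  if i = 0 then a.rx else if i = 1 then a.ry else if i = 2 then a.r0 else if i = 3 then a.r1
  else
    let c := (i - 4) / (3 + 2 * w)
    let j := (i - 4) % (3 + 2 * w)
    if j = 0 then a.lo c else if j = 1 then a.hi c else if j = 2 then a.vv c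
    else if (j - 3) % 2 = 0 then a.s1 c ((j - 3) / 2) else a.s2 c ((j - 3) / 2)

/-- The bit string of a label, with `K` classes. -/
def enc (w K : ℕ) (a : Lab) : List Bool :=
  List.replicate w true ++ false :: (List.replicate a.cls true ++ false ::
    (List.range ((4 + K * (3 + 2 * w)) * w)).map
      (fun i => (a.seq w (i / w)).testBit (i % w)))

private theorem Bits_ones_false (s : List Bool) : ones (false :: s) = 0 := by
  simp [ones]

private theorem Bits_ones_true (s : List Bool) : ones (true :: s) = ones s + 1 := by
  simp [ones]

theorem enc_length (w K : ℕ) (a : Lab) :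
    (enc w K a).length = w + a.cls + 2 + (4 + K * (3 + 2 * w)) * w := by
  simp only [enc, List.length_append, List.length_replicate, List.length_cons, List.length_map,
    List.length_range]
  omega

theorem ones_replicate (w : ℕ) (s : List Bool) :
    ones (List.replicate w true ++ false :: s) = w := by
  induction w with
  | zero => simpa using Bits_ones_false s
  | succ w ih => rw [List.replicate_succ, List.cons_append, Bits_ones_true, ih]

theorem rest_replicate (w : ℕ) (s : List Bool) :
    rest (List.replicate w true ++ false :: s) = s := by
  unfold rest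
  rw [ones_replicate]
  induction w with
  | zero => simp
  | succ w ih => rw [List.replicate_succ, List.cons_append, List.drop_succ_cons, ih]

/-- `Nat.testBit_ofBits_lt`, `Nat.eq_of_testBit_eq` and `Nat.testBit_lt_two_pow`. -/
theorem num_map (w m : ℕ) (f : ℕ → ℕ) {i : ℕ} (hi : i < m) (hf : f i < 2 ^ w) :
    num w ((List.range (m * w)).map (fun i => (f (i / w)).testBit (i % w))) i = f i := by
  have h1 : (fun j : Fin w => ((List.range (m * w)).map
      (fun i => (f (i / w)).testBit (i % w))).getD (i * w + j.val) false) =
      fun j : Fin w => (f i).testBit j.val := by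
    funext j
    have hj : j.val < w := j.isLt
    have hlt : i * w + j.val < m * w := by
      calc i * w + j.val < i * w + w := by omega
        _ = (i + 1) * w := by ring
        _ ≤ m * w := Nat.mul_le_mul_right w hi
    have hdiv : (i * w + j.val) / w = i := by
      rw [mul_comm, Nat.mul_add_div (by omega), Nat.div_eq_of_lt hj, add_zero]
    have hmod : (i * w + j.val) % w = j.val := by
      rw [mul_comm, Nat.mul_add_mod, Nat.mod_eq_of_lt hj]
    rw [List.getD_eq_getElem _ _ (by simpa using hlt), List.getElem_map, List.getElem_range, hdiv,
      hmod]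
  unfold num
  rw [h1]
  apply Nat.eq_of_testBit_eq
  intro k
  by_cases hk : k < w
  · rw [Nat.testBit_ofBits_lt _ _ hk]
  · rw [Nat.testBit_ofBits_ge _ _ (by omega), Nat.testBit_lt_two_pow
      (lt_of_lt_of_le hf (Nat.pow_le_pow_right (by norm_num) (by omega)))]

end UDGConv
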