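import Pool.Agent.Lib.UDGConv.Defs

/-! A class is a monotone chain (module of `UDGConv`; paper section 1). -/

namespace UDGConv

theorem sqd_fl (t : ℕ) (a b : ℝ × ℝ) : sqd (fl t a) (fl t b) = sqd a b := by
  unfold sqd fl
  split_ifs
  · rfl
  · show (a.1 - b.1) ^ 2 + (-a.2 - -b.2) ^ 2 = _
    ring

theorem fl_ne (t : ℕ) {ν : ℝ × ℝ} (h : ν ≠ 0) : fl t ν ≠ 0 := by
  unfold fl
  split_ifs
  · exact h
  · intro h0
    apply h
    have h1 : ν.1 = 0 := congrArg Prod.fst h0
    have h2 : -ν.2 = 0 := congrArg Prod.snd h0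
    exact Prod.ext h1 (by simpa using h2)

/-- The supporting inequality after the reflection. -/
theorem Fam.sup_fl {n : ℕ} {p ν : Fin n → ℝ × ℝ} {cls : Fin n → ℕ} (h : Fam n p ν cls) (t : ℕ)
    {u v : Fin n} (hc : cls u = cls v) :
    (fl t (ν v)).1 * ((fl t (p u)).1 - (fl t (p v)).1) +
      (fl t (ν v)).2 * ((fl t (p u)).2 - (fl t (p v)).2) ≤ 0 := by
  have h1 := h.sup u v hc
  unfold fl
  split_ifs
  · exact h1
  · show (ν v).1 * ((p u).1 - (p v).1) + -(ν v).2 * (-(p u).2 - -(p v).2) ≤ 0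
    linarith

private lemma strict {x y a b : ℝ} (hx : 0 ≤ x) (hy : 0 ≤ y) (hn : ¬ (x = 0 ∧ y = 0))
    (ha : 0 < a) (hb : 0 < b) : 0 < x * a + y * b := by
  rcases hx.lt_or_eq with h | h
  · have := mul_pos h ha
    have := mul_nonneg hy hb.le
    linarith
  · rcases hy.lt_or_eq with h' | h'
    · have := mul_pos h' hb
      have := mul_nonneg hx ha.le
      linarith
    · exact absurd ⟨h.symm, h'.symm⟩ hn

/-- `d = fl (p v) - fl (p u)` has `d.1 - d.2 ≥ 0`. If `d.1 < 0` then `d.2 < 0` too, if `d.2 > 0` then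
`d.1 > 0` too; both are impossible since the normals of `u` and of `v` are both `≤ 0` or both `≥ 0`,
and `≠ 0`. -/
theorem Fam.chain {n : ℕ} {p ν : Fin n → ℝ × ℝ} {cls : Fin n → ℕ} (h : Fam n p ν cls)
    {u v : Fin n} (hc : cls u = cls v)
    (hk : key (cls v % 4) (p u) ≤ key (cls v % 4) (p v)) :
    (fl (cls v % 4) (p u)).1 ≤ (fl (cls v % 4) (p v)).1 ∧
      (fl (cls v % 4) (p v)).2 ≤ (fl (cls v % 4) (p u)).2 := by
  have h1 := h.sup_fl (cls v % 4) hc
  have h2 := h.sup_fl (cls v % 4) hc.symm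
  have n1 := fl_ne (cls v % 4) (h.ne v)
  have n2 := fl_ne (cls v % 4) (h.ne u)
  have t1 := h.ty v
  have t2 := h.ty u
  rw [hc] at t2
  unfold TypeOK at t1 t2
  unfold key at hk
  set t := cls v % 4
  set A := fl t (p u)
  set B := fl t (p v)
  set N := fl t (ν v)
  set M := fl t (ν u)
  have n1' : ¬ (N.1 = 0 ∧ N.2 = 0) := fun h => n1 (Prod.ext h.1 h.2)
  have n2' : ¬ (M.1 = 0 ∧ M.2 = 0) := fun h => n2 (Prod.ext h.1 h.2)
  have n1'' : ¬ (-N.1 = 0 ∧ -N.2 = 0) := fun h => n1' ⟨by linarith [h.1], by linarith [h.2]⟩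
  have n2'' : ¬ (-M.1 = 0 ∧ -M.2 = 0) := fun h => n2' ⟨by linarith [h.1], by linarith [h.2]⟩
  split_ifs at t1 t2 with ht
  · constructor
    · by_contra hh
      push Not at hh
      have h3 : 0 < A.1 - B.1 := by linarith
      have h4 : 0 < A.2 - B.2 := by linarith
      have := strict (by linarith [t2.1]) (by linarith [t2.2]) n2'' h3 h4
      nlinarith
    · by_contra hh
      push Not at hh
      have h3 : 0 < B.1 - A.1 := by linarith
      have h4 : 0 < B.2 - A.2 := by linarith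
      have := strict (by linarith [t1.1]) (by linarith [t1.2]) n1'' h3 h4
      nlinarith
  · constructor
    · by_contra hh
      push Not at hh
      have h3 : 0 < A.1 - B.1 := by linarith
      have h4 : 0 < A.2 - B.2 := by linarith
      have := strict t1.1 t1.2 n1' h3 h4
      nlinarith
    · by_contra hh
      push Not at hh
      have h3 : 0 < B.1 - A.1 := by linarith
      have h4 : 0 < B.2 - A.2 := by linarith
      have := strict t2.1 t2.2 n2' h3 h4
      nlinarith

end UDGConv
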