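import Pool.Agent.Lib.UDGConv.Bits

/-! The decoder reads the encoded labels correctly (module of `UDGConv`). -/

namespace UDGConv

private theorem decenc_seq_at (w c j : ℕ) (hj : j < 3 + 2 * w) (a : Lab) :
    a.seq w (4 + c * (3 + 2 * w) + j) =
      if j = 0 then a.lo c else if j = 1 then a.hi c else if j = 2 then a.vv c
      else if (j - 3) % 2 = 0 then a.s1 c ((j - 3) / 2) else a.s2 c ((j - 3) / 2) := by
  have h0 : 4 + c * (3 + 2 * w) + j - 4 = j + (3 + 2 * w) * c := by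
    rw [Nat.mul_comm (3 + 2 * w) c]; omega
  have h1 : (4 + c * (3 + 2 * w) + j - 4) / (3 + 2 * w) = c := by
    rw [h0, Nat.add_mul_div_left _ _ (by omega), Nat.div_eq_of_lt hj, zero_add]
  have h2 : (4 + c * (3 + 2 * w) + j - 4) % (3 + 2 * w) = j := by
    rw [h0, Nat.add_mul_mod_self_left, Nat.mod_eq_of_lt hj]
  have n0 : 4 + c * (3 + 2 * w) + j ≠ 0 := by omega
  have n1 : 4 + c * (3 + 2 * w) + j ≠ 1 := by omega
  have n2 : 4 + c * (3 + 2 * w) + j ≠ 2 := by omega
  have n3 : 4 + c * (3 + 2 * w) + j ≠ 3 := by omega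
  unfold Lab.seq
  rw [if_neg n0, if_neg n1, if_neg n2, if_neg n3]
  simp only [h1, h2]

private theorem decenc_seq_lt (w i : ℕ) (a : Lab) (hB : a.Bd (2 ^ w)) : a.seq w i < 2 ^ w := by
  obtain ⟨h1, h2, h3, h4, h5⟩ := hB
  unfold Lab.seq
  split
  · exact h1
  split
  · exact h2
  split
  · exact h3
  split
  · exact h4
  dsimp only
  split
  · exact (h5 _).1
  split
  · exact (h5 _).2.1
  split
  · exact (h5 _).2.2.1
  split
  · exact ((h5 _).2.2.2 _).1
  · exact ((h5 _).2.2.2 _).2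

private theorem decenc_stair (L x y v : ℕ) (z z2 t t2 z' z2' t' t2' : ℕ → ℕ)
    (h1 : ∀ l < L, z l = z' l) (h2 : ∀ l < L, z2 l = z2' l) (h3 : ∀ l < L, t l = t' l)
    (h4 : ∀ l < L, t2 l = t2' l) :
    stairDec L x y v z z2 t t2 = stairDec L x y v z' z2' t' t2' := by
  unfold stairDec
  split
  · refine decide_eq_decide.2 ⟨?_, ?_⟩
    · rintro ⟨l, hl, h⟩
      refine ⟨l, hl, ?_⟩
      rw [← h1 l hl, ← h3 l hl]
      exact h
    · rintro ⟨l, hl, h⟩
      refine ⟨l, hl, ?_⟩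
      rw [h1 l hl, h3 l hl]
      exact h
  · refine decide_eq_decide.2 ⟨?_, ?_⟩
    · rintro ⟨l, hl, h⟩
      refine ⟨l, hl, ?_⟩
      rw [← h2 l hl, ← h4 l hl]
      exact h
    · rintro ⟨l, hl, h⟩
      refine ⟨l, hl, ?_⟩
      rw [h2 l hl, h4 l hl]
      exact h

/-- All the numbers of the label with class index `< K` and level `< w` are read correctly. -/
theorem ofBits_enc {w K : ℕ} {a : Lab} (hB : a.Bd (2 ^ w)) :
    ones (enc w K a) = w ∧ (Lab.ofBits (enc w K a)).cls = a.cls ∧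
    (Lab.ofBits (enc w K a)).rx = a.rx ∧ (Lab.ofBits (enc w K a)).ry = a.ry ∧
    (Lab.ofBits (enc w K a)).r0 = a.r0 ∧ (Lab.ofBits (enc w K a)).r1 = a.r1 ∧
    ∀ c < K, (Lab.ofBits (enc w K a)).lo c = a.lo c ∧ (Lab.ofBits (enc w K a)).hi c = a.hi c ∧
      (Lab.ofBits (enc w K a)).vv c = a.vv c ∧
      ∀ l < w, (Lab.ofBits (enc w K a)).s1 c l = a.s1 c l ∧
        (Lab.ofBits (enc w K a)).s2 c l = a.s2 c l := by
  have o1 : ones (enc w K a) = w := ones_replicate _ _
  have r1 : rest (enc w K a) = List.replicate a.cls true ++ false ::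
      (List.range ((4 + K * (3 + 2 * w)) * w)).map
        (fun i => (a.seq w (i / w)).testBit (i % w)) := rest_replicate _ _
  have o2 : ones (rest (enc w K a)) = a.cls := by rw [r1]; exact ones_replicate _ _
  have r2 : rest (rest (enc w K a)) = (List.range ((4 + K * (3 + 2 * w)) * w)).map
        (fun i => (a.seq w (i / w)).testBit (i % w)) := by rw [r1]; exact rest_replicate _ _
  have key : ∀ i < 4 + K * (3 + 2 * w),
      num (ones (enc w K a)) (rest (rest (enc w K a))) i = a.seq w i := by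
    intro i hi
    rw [o1, r2]
    exact num_map w (4 + K * (3 + 2 * w)) (a.seq w) hi (decenc_seq_lt w i a hB)
  have key2 : ∀ c < K, ∀ j < 3 + 2 * w,
      num (ones (enc w K a)) (rest (rest (enc w K a)))
        (4 + c * (3 + 2 * (ones (enc w K a))) + j) =
      if j = 0 then a.lo c else if j = 1 then a.hi c else if j = 2 then a.vv c
      else if (j - 3) % 2 = 0 then a.s1 c ((j - 3) / 2) else a.s2 c ((j - 3) / 2) := by
    intro c hc j hj
    rw [← decenc_seq_at w c j hj a, ← key, o1]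
    have h1 : (c + 1) * (3 + 2 * w) ≤ K * (3 + 2 * w) := Nat.mul_le_mul_right _ hc
    rw [add_mul, one_mul] at h1
    omega
  refine ⟨o1, o2, ?_, ?_, ?_, ?_, ?_⟩
  · exact key 0 (by omega)
  · exact key 1 (by omega)
  · exact key 2 (by omega)
  · exact key 3 (by omega)
  · intro c hc
    refine ⟨?_, ?_, ?_, ?_⟩
    · exact key2 c hc 0 (by omega)
    · exact key2 c hc 1 (by omega)
    · exact key2 c hc 2 (by omega)
    · intro l hl
      constructor
      · have h1 := key2 c hc (3 + 2 * l) (by omega)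
        rw [if_neg (by omega), if_neg (by omega), if_neg (by omega), if_pos (by omega)] at h1
        have h2 : (3 + 2 * l - 3) / 2 = l := by omega
        rw [h2, ← Nat.add_assoc (4 + c * (3 + 2 * ones (enc w K a))) 3 (2 * l)] at h1
        exact h1
      · have h1 := key2 c hc (4 + 2 * l) (by omega)
        rw [if_neg (by omega), if_neg (by omega), if_neg (by omega), if_neg (by omega)] at h1
        have h2 : (4 + 2 * l - 3) / 2 = l := by omega
        rw [h2, ← Nat.add_assoc (4 + c * (3 + 2 * ones (enc w K a))) 4 (2 * l)] at h1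
        exact h1

/-- `Lab.dec w` uses only class indices `a.cls`, `b.cls` and levels `< w`. -/
theorem decode_enc {w K : ℕ} {a b : Lab} (ha : a.cls < K) (hb : b.cls < K) (hBa : a.Bd (2 ^ w))
    (hBb : b.Bd (2 ^ w)) : decode (enc w K a) (enc w K b) = Lab.dec w a b := by
  obtain ⟨a0, a1, a2, a3, a4, a5, a6⟩ := ofBits_enc (K := K) hBa
  obtain ⟨_, b1, b2, b3, b4, b5, b6⟩ := ofBits_enc (K := K) hBb
  obtain ⟨A1, A2, A3, A4⟩ := a6 b.cls hb
  obtain ⟨B1, B2, B3, B4⟩ := b6 a.cls ha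
  unfold decode
  rw [a0]
  generalize Lab.ofBits (enc w K a) = a' at *
  generalize Lab.ofBits (enc w K b) = b' at *
  have f1 : Lab.far a' b' = Lab.far a b := by
    unfold Lab.far
    rw [a1, a2, a3, b2, b3]
  have f2 : Lab.far b' a' = Lab.far b a := by
    unfold Lab.far
    rw [b1, a2, a3, b2, b3]
  have k1 : a'.rk = a.rk := by
    unfold Lab.rk
    rw [a1, a4, a5]
  have k2 : b'.rk = b.rk := by
    unfold Lab.rk
    rw [b1, b4, b5]
  unfold Lab.dec
  rw [f1, f2, k1, k2, a1, b1, B1, B2, A1, A2, A3, B3]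
  rw [decenc_stair w a.rk b.rk (b.vv a.cls) (a'.s1 b.cls) (a'.s2 b.cls) (b'.s1 a.cls)
    (b'.s2 a.cls) (a.s1 b.cls) (a.s2 b.cls) (b.s1 a.cls) (b.s2 a.cls)
    (fun l hl => (A4 l hl).1) (fun l hl => (A4 l hl).2) (fun l hl => (B4 l hl).1)
    (fun l hl => (B4 l hl).2)]
  rw [decenc_stair w b.rk a.rk (a.vv b.cls) (b'.s1 a.cls) (b'.s2 a.cls) (a'.s1 b.cls)
    (a'.s2 b.cls) (b.s1 a.cls) (b.s2 a.cls) (a.s1 b.cls) (a.s2 b.cls)
    (fun l hl => (B4 l hl).1) (fun l hl => (B4 l hl).2) (fun l hl => (A4 l hl).1)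
    (fun l hl => (A4 l hl).2)]

end UDGConv
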