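import Pool.Agent.Lib.UDGConv.DefsL
import Pool.Agent.Lib.UDGConv.DecEnc

/-! The decoder of the local version reads the encoded labels correctly (module of `UDGConv`). -/

namespace UDGConv

private theorem decl_stair (L x y v : ℕ) (z z2 t t2 z' z2' t' t2' : ℕ → ℕ)
    (h1 : ∀ l < L, z' l = z l) (h2 : ∀ l < L, z2' l = z2 l) (h3 : ∀ l < L, t' l = t l)
    (h4 : ∀ l < L, t2' l = t2 l) :
    stairDec L x y v z' z2' t' t2' = stairDec L x y v z z2 t t2 := by
  unfold stairDec
  split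
  · refine decide_eq_decide.2 ⟨?_, ?_⟩
    · rintro ⟨l, hl, h⟩
      exact ⟨l, hl, by rw [← h1 l hl, ← h3 l hl]; exact h⟩
    · rintro ⟨l, hl, h⟩
      exact ⟨l, hl, by rw [h1 l hl, h3 l hl]; exact h⟩
  · refine decide_eq_decide.2 ⟨?_, ?_⟩
    · rintro ⟨l, hl, h⟩
      exact ⟨l, hl, by rw [← h2 l hl, ← h4 l hl]; exact h⟩
    · rintro ⟨l, hl, h⟩
      exact ⟨l, hl, by rw [h2 l hl, h4 l hl]; exact h⟩

/-- The numbers of `a'` for the class of `b'` agree with the numbers of `a` for the class of `b`. -/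
def Agree (w : ℕ) (a' b' a b : Lab) : Prop :=
  a'.lo b'.cls = a.lo b.cls ∧ a'.hi b'.cls = a.hi b.cls ∧ a'.vv b'.cls = a.vv b.cls ∧
    ∀ l < w, a'.s1 b'.cls l = a.s1 b.cls l ∧ a'.s2 b'.cls l = a.s2 b.cls l

/-- The coordinates, ranks and the type agree. -/
def Same (a' a : Lab) : Prop :=
  a'.cls % 4 = a.cls % 4 ∧ a'.rx = a.rx ∧ a'.ry = a.ry ∧ a'.r0 = a.r0 ∧ a'.r1 = a.r1

theorem dec_congr {w : ℕ} {a' b' a b : Lab} (ha : Same a' a) (hb : Same b' b)
    (hA : Agree w a' b' a b) (hB : Agree w b' a' b a) : Lab.dec w a' b' = Lab.dec w a b := by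
  obtain ⟨a1, a2, a3, a4, a5⟩ := ha
  obtain ⟨b1, b2, b3, b4, b5⟩ := hb
  obtain ⟨A1, A2, A3, A4⟩ := hA
  obtain ⟨B1, B2, B3, B4⟩ := hB
  have f1 : Lab.far a' b' = Lab.far a b := by
    unfold Lab.far
    rw [a1, a2, a3, b2, b3]
  have f2 : Lab.far b' a' = Lab.far b a := by
    unfold Lab.far
    rw [b1, a2, a3, b2, b3]
  have k1 : a'.rk = a.rk := by
    unfold Lab.rk
    rw [a1, a4, a5]
  have k2 : b'.rk = b.rk := by
    unfold Lab.rk
    rw [b1, b4, b5]
  have m1 : a'.cls % 2 = a.cls % 2 := by omega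
  unfold Lab.dec
  rw [f1, f2, k1, k2, m1, B1, B2, A1, A2, A3, B3]
  rw [decl_stair w a.rk b.rk (b.vv a.cls) (a.s1 b.cls) (a.s2 b.cls) (b.s1 a.cls)
    (b.s2 a.cls) (a'.s1 b'.cls) (a'.s2 b'.cls) (b'.s1 a'.cls) (b'.s2 a'.cls)
    (fun l hl => (A4 l hl).1) (fun l hl => (A4 l hl).2) (fun l hl => (B4 l hl).1)
    (fun l hl => (B4 l hl).2)]
  rw [decl_stair w b.rk a.rk (a.vv b.cls) (b.s1 a.cls) (b.s2 a.cls) (a.s1 b.cls)
    (a.s2 b.cls) (b'.s1 a'.cls) (b'.s2 a'.cls) (a'.s1 b'.cls) (a'.s2 b'.cls)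
    (fun l hl => (B4 l hl).1) (fun l hl => (B4 l hl).2) (fun l hl => (A4 l hl).1)
    (fun l hl => (A4 l hl).2)]

/-- The bit string of a label of the local version. -/
def encL (w K : ℕ) (a : LabL) : List Bool :=
  List.replicate w true ++ false ::
    ((List.range (10 * w)).map
      (fun i => ((if i / w = 0 then a.cell else a.nb (i / w - 1)) : ℕ).testBit (i % w)) ++
      enc w K a.base)

theorem encL_length (w K : ℕ) (a : LabL) :
    (encL w K a).length = w + 1 + 10 * w + (enc w K a.base).length := by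
  simp only [encL, List.length_append, List.length_replicate, List.length_cons, List.length_map,
    List.length_range]
  omega

theorem num_append (w m : ℕ) (s t : List Bool) (hs : s.length = m * w) {i : ℕ} (hi : i < m) :
    num w (s ++ t) i = num w s i := by
  unfold num
  congr 1
  funext j
  have hj : j.val < w := j.isLt
  have hlt : i * w + j.val < m * w := by
    calc i * w + j.val < i * w + w := by omega
      _ = (i + 1) * w := by ring
      _ ≤ m * w := Nat.mul_le_mul_right w hi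
  rw [List.getD_append _ _ _ _ (by omega)]

theorem labL_dec_iff (L : ℕ) (a b : LabL) : LabL.dec L a b = true ↔
    ∃ τ < 9, a.nb τ = b.cell ∧ Lab.dec L (a.base.view τ) (b.base.view (8 - τ)) = true := by
  unfold LabL.dec
  simp only [List.any_eq_true, List.mem_range, Bool.and_eq_true, decide_eq_true_eq]

theorem decodeL_encL {w K : ℕ} {a b : LabL} (ha : a.base.cls < K) (hb : b.base.cls < K)
    (hBa : a.base.Bd (2 ^ w)) (hBb : b.base.Bd (2 ^ w)) (ha1 : a.cell < 2 ^ w)
    (hb1 : b.cell < 2 ^ w) (ha2 : ∀ τ, a.nb τ < 2 ^ w) :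
    decodeL (encL w (9 * K) a) (encL w (9 * K) b) = LabL.dec w a b := by
  have o : ∀ a : LabL, ones (encL w (9 * K) a) = w := fun a => ones_replicate _ _
  have r : ∀ a : LabL, rest (encL w (9 * K) a) = (List.range (10 * w)).map
      (fun i => ((if i / w = 0 then a.cell else a.nb (i / w - 1)) : ℕ).testBit (i % w)) ++
      enc w (9 * K) a.base := fun a => rest_replicate _ _
  have d : ∀ a : LabL, (rest (encL w (9 * K) a)).drop (10 * w) = enc w (9 * K) a.base := by
    intro a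
    rw [r a]
    have hl : ((List.range (10 * w)).map
      (fun i => ((if i / w = 0 then a.cell else a.nb (i / w - 1)) : ℕ).testBit (i % w))).length
        = 10 * w := by simp
    exact List.drop_left' hl
  have nm : ∀ a : LabL, ∀ i < 10, (if i = 0 then a.cell else a.nb (i - 1)) < 2 ^ w →
      num w (rest (encL w (9 * K) a)) i = if i = 0 then a.cell else a.nb (i - 1) := by
    intro a i hi hlt
    rw [r a, num_append w 10 _ _ (by simp) hi]
    exact num_map w 10 (fun i => if i = 0 then a.cell else a.nb (i - 1)) hi hlt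
  unfold decodeL
  rw [o a]
  rw [Bool.eq_iff_iff, labL_dec_iff, labL_dec_iff]
  have hcell : (LabL.ofBits (encL w (9 * K) b)).cell = b.cell := by
    unfold LabL.ofBits
    rw [o b]
    exact nm b 0 (by norm_num) hb1
  have hnb : ∀ τ < 9, (LabL.ofBits (encL w (9 * K) a)).nb τ = a.nb τ := by
    intro τ hτ
    unfold LabL.ofBits
    rw [o a]
    have := nm a (τ + 1) (by omega) (by simpa using ha2 τ)
    simpa using this
  have hba : (LabL.ofBits (encL w (9 * K) a)).base = Lab.ofBits (enc w (9 * K) a.base) := by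
    unfold LabL.ofBits
    rw [o a]
    exact congrArg Lab.ofBits (d a)
  have hbb : (LabL.ofBits (encL w (9 * K) b)).base = Lab.ofBits (enc w (9 * K) b.base) := by
    unfold LabL.ofBits
    rw [o b]
    exact congrArg Lab.ofBits (d b)
  obtain ⟨_, c1, c2, c3, c4, c5, c6⟩ := ofBits_enc (K := 9 * K) hBa
  obtain ⟨_, e1, e2, e3, e4, e5, e6⟩ := ofBits_enc (K := 9 * K) hBb
  have main : ∀ τ < 9, Lab.dec w ((LabL.ofBits (encL w (9 * K) a)).base.view τ)
      ((LabL.ofBits (encL w (9 * K) b)).base.view (8 - τ)) =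
      Lab.dec w (a.base.view τ) (b.base.view (8 - τ)) := by
    intro τ hτ
    rw [hba, hbb]
    refine dec_congr ⟨?_, c2, c3, c4, c5⟩ ⟨?_, e2, e3, e4, e5⟩ ?_ ?_
    · change (Lab.ofBits (enc w (9 * K) a.base)).cls % 4 = a.base.cls % 4
      rw [c1]
    · change (Lab.ofBits (enc w (9 * K) b.base)).cls % 4 = b.base.cls % 4
      rw [e1]
    · obtain ⟨g1, g2, g3, g4⟩ := c6 (9 * b.base.cls + τ) (by omega)
      refine ⟨?_, ?_, ?_, fun l hl => ⟨?_, ?_⟩⟩
      · change (Lab.ofBits (enc w (9 * K) a.base)).lo (9 * (Lab.ofBits (enc w (9 * K) b.base)).cls + τ) = _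
        rw [e1, g1]; rfl
      · change (Lab.ofBits (enc w (9 * K) a.base)).hi (9 * (Lab.ofBits (enc w (9 * K) b.base)).cls + τ) = _
        rw [e1, g2]; rfl
      · change (Lab.ofBits (enc w (9 * K) a.base)).vv (9 * (Lab.ofBits (enc w (9 * K) b.base)).cls + τ) = _
        rw [e1, g3]; rfl
      · change (Lab.ofBits (enc w (9 * K) a.base)).s1 (9 * (Lab.ofBits (enc w (9 * K) b.base)).cls + τ) l = _
        rw [e1, (g4 l hl).1]; rfl
      · change (Lab.ofBits (enc w (9 * K) a.base)).s2 (9 * (Lab.ofBits (enc w (9 * K) b.base)).cls + τ) l = _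
        rw [e1, (g4 l hl).2]; rfl
    · obtain ⟨g1, g2, g3, g4⟩ := e6 (9 * a.base.cls + (8 - τ)) (by omega)
      refine ⟨?_, ?_, ?_, fun l hl => ⟨?_, ?_⟩⟩
      · change (Lab.ofBits (enc w (9 * K) b.base)).lo (9 * (Lab.ofBits (enc w (9 * K) a.base)).cls + (8 - τ)) = _
        rw [c1, g1]; rfl
      · change (Lab.ofBits (enc w (9 * K) b.base)).hi (9 * (Lab.ofBits (enc w (9 * K) a.base)).cls + (8 - τ)) = _
        rw [c1, g2]; rfl
      · change (Lab.ofBits (enc w (9 * K) b.base)).vv (9 * (Lab.ofBits (enc w (9 * K) a.base)).cls + (8 - τ)) = _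
        rw [c1, g3]; rfl
      · change (Lab.ofBits (enc w (9 * K) b.base)).s1 (9 * (Lab.ofBits (enc w (9 * K) a.base)).cls + (8 - τ)) l = _
        rw [c1, (g4 l hl).1]; rfl
      · change (Lab.ofBits (enc w (9 * K) b.base)).s2 (9 * (Lab.ofBits (enc w (9 * K) a.base)).cls + (8 - τ)) l = _
        rw [c1, (g4 l hl).2]; rfl
  rw [hcell]
  constructor
  · rintro ⟨τ, hτ, h1, h2⟩
    refine ⟨τ, hτ, ?_, ?_⟩
    · rw [← hnb τ hτ]; exact h1
    · rw [← main τ hτ]; exact h2
  · rintro ⟨τ, hτ, h1, h2⟩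
    refine ⟨τ, hτ, ?_, ?_⟩
    · rw [hnb τ hτ]; exact h1
    · rw [main τ hτ]; exact h2

end UDGConv
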