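import Mathlib

/-!
# Adjacency labels for unit disk graphs with centres on few convex curves: definitions

Paper: team-store `MP_b30534_lc_paper.md`.
-/

namespace UDGConv

/-- The euclidean plane. -/
abbrev Pl : Type := EuclideanSpace ℝ (Fin 2)

/-- Squared euclidean distance, in coordinates. -/
def sqd (a b : ℝ × ℝ) : ℝ := (a.1 - b.1) ^ 2 + (a.2 - b.2) ^ 2

/-- `l` times: halve and round up. -/
def up : ℕ → ℕ → ℕ
  | 0, x => x
  | l + 1, x => (up l x + 1) / 2

/-- `l` times: halve and round down. -/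
def dn : ℕ → ℕ → ℕ
  | 0, x => x
  | l + 1, x => dn l x / 2

/-- A label in structured form: the class `cls` (the type is `cls % 4`), the ranks `rx`, `ry` of
the two coordinates, the ranks `r0`, `r1` for the keys `x - y` and `x + y`, for every class `c` the
interval `[lo c, hi c]`, the number `vv c` and the numbers `s1 c l`, `s2 c l`. -/
structure Lab where
  cls : ℕ
  rx : ℕ
  ry : ℕ
  r0 : ℕ
  r1 : ℕ
  lo : ℕ → ℕ
  hi : ℕ → ℕ
  vv : ℕ → ℕ
  s1 : ℕ → ℕ → ℕ
  s2 : ℕ → ℕ → ℕ

/-- The rank used for the type of `a`. -/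
def Lab.rk (a : Lab) : ℕ := if a.cls % 4 < 2 then a.r0 else a.r1

/-- `b` is far from `a`, decided by the ranks of the coordinates and the type of `a`. -/
def Lab.far (a b : Lab) : Bool :=
  if a.cls % 4 = 0 then decide (a.rx < b.rx ∧ a.ry < b.ry)
  else if a.cls % 4 = 1 then decide (b.rx < a.rx ∧ b.ry < a.ry)
  else if a.cls % 4 = 2 then decide (a.rx < b.rx ∧ b.ry < a.ry)
  else decide (b.rx < a.rx ∧ a.ry < b.ry)

/-- The staircase decoder for the row `x` (with numbers `z`, `z2`) and the column `y` (with numbers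
`v`, `t`, `t2`). -/
def stairDec (L x y v : ℕ) (z z2 t t2 : ℕ → ℕ) : Bool :=
  if x ≤ v then decide (∃ l < L, up l x = dn l v ∧ y ≤ z l ∧ x ≤ t l)
  else decide (∃ l < L, up l (v + 1) = dn l x ∧ z2 l ≤ y ∧ t2 l ≤ x)

/-- The decoder for structured labels. -/
def Lab.dec (L : ℕ) (a b : Lab) : Bool :=
  if Lab.far a b = false then decide (b.lo a.cls ≤ a.rk ∧ a.rk ≤ b.hi a.cls)
  else if Lab.far b a = false then decide (a.lo b.cls ≤ b.rk ∧ b.rk ≤ a.hi b.cls)
  else if a.cls % 2 = 0 then
    stairDec L a.rk b.rk (b.vv a.cls) (a.s1 b.cls) (a.s2 b.cls) (b.s1 a.cls) (b.s2 a.cls)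
  else
    stairDec L b.rk a.rk (a.vv b.cls) (b.s1 a.cls) (b.s2 a.cls) (a.s1 b.cls) (a.s2 b.cls)

/-- All numbers of the label (except the class) are smaller than `B`. -/
def Lab.Bd (B : ℕ) (a : Lab) : Prop :=
  a.rx < B ∧ a.ry < B ∧ a.r0 < B ∧ a.r1 < B ∧
    ∀ c, a.lo c < B ∧ a.hi c < B ∧ a.vv c < B ∧ ∀ l, a.s1 c l < B ∧ a.s2 c l < B

/-! ## Bit strings -/

/-- The number written in the `i`-th block of `w` bits of the string `s`. -/
def num (w : ℕ) (s : List Bool) (i : ℕ) : ℕ :=
  Nat.ofBits (fun j : Fin w => s.getD (i * w + j.val) false)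

/-- The number of leading ones. -/
def ones (s : List Bool) : ℕ := (s.takeWhile (fun b => b)).length

/-- The string after the leading ones and the following zero. -/
def rest (s : List Bool) : List Bool := s.drop (ones s + 1)

/-- The structured label contained in a bit string: first the width `w` of the numbers in unary, then
the class in unary, then the numbers in blocks of `w` bits. -/
def Lab.ofBits (s : List Bool) : Lab :=
  let w := ones s
  let body := rest (rest s)
  { cls := ones (rest s)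
    rx := num w body 0
    ry := num w body 1
    r0 := num w body 2
    r1 := num w body 3
    lo := fun c => num w body (4 + c * (3 + 2 * w))
    hi := fun c => num w body (4 + c * (3 + 2 * w) + 1)
    vv := fun c => num w body (4 + c * (3 + 2 * w) + 2)
    s1 := fun c l => num w body (4 + c * (3 + 2 * w) + 3 + 2 * l)
    s2 := fun c l => num w body (4 + c * (3 + 2 * w) + 4 + 2 * l) }

/-- **The decoder.** It gets the two labels (bit strings) and nothing else. -/
def decode (s t : List Bool) : Bool := Lab.dec (ones s) (Lab.ofBits s) (Lab.ofBits t)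

/-! ## Types -/

/-- Reflection in the second coordinate for the types 2 and 3. -/
def fl (t : ℕ) (a : ℝ × ℝ) : ℝ × ℝ := if t < 2 then a else (a.1, -a.2)

/-- The vector `ν` has type `t`: both coordinates of `fl t ν` are `≤ 0` (`t` even), `≥ 0` (`t` odd). -/
def TypeOK (t : ℕ) (ν : ℝ × ℝ) : Prop :=
  if t % 2 = 0 then (fl t ν).1 ≤ 0 ∧ (fl t ν).2 ≤ 0 else 0 ≤ (fl t ν).1 ∧ 0 ≤ (fl t ν).2

/-- `b` is far from the point `a` of type `t`. -/
def Far (t : ℕ) (a b : ℝ × ℝ) : Prop :=
  if t % 2 = 0 then (fl t a).1 < (fl t b).1 ∧ (fl t a).2 < (fl t b).2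
  else (fl t b).1 < (fl t a).1 ∧ (fl t b).2 < (fl t a).2

/-- The key used for the type `t`. -/
def key (t : ℕ) (a : ℝ × ℝ) : ℝ := (fl t a).1 - (fl t a).2

/-- A finite family of points `p v` with classes `cls v` (type `cls v % 4`) and outer normals `ν v`:
each point is on a supporting line of its class. -/
structure Fam (n : ℕ) (p ν : Fin n → ℝ × ℝ) (cls : Fin n → ℕ) : Prop where
  ne : ∀ v, ν v ≠ 0
  ty : ∀ v, TypeOK (cls v % 4) (ν v)
  sup : ∀ u v, cls u = cls v →
    (ν v).1 * ((p u).1 - (p v).1) + (ν v).2 * ((p u).2 - (p v).2) ≤ 0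

/-- The rank function `r` is injective, has values in `[1, n]` and is monotone for `k`. -/
structure Rk (n : ℕ) (k : Fin n → ℝ) (r : Fin n → ℕ) : Prop where
  inj : Function.Injective r
  pos : ∀ v, 1 ≤ r v
  le : ∀ v, r v ≤ n
  mono : ∀ u v, r u < r v → k u ≤ k v

end UDGConv
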