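import Pool.Agent.Lib.UDGConv.Defs

/-!
# The local version: definitions

The plane is cut into unit squares. The label of a vertex contains the name of its square, the names
of the nine squares around it, and a structured label in which the class index `9 * c + τ` stands for
the local class `c` of the `τ`-th square around.
-/

namespace UDGConv

/-- A label for the local version: `cell` is the name of the square of the vertex, `nb τ` (`τ < 9`)
the name of the `τ`-th square around it. -/
structure LabL where
  cell : ℕ
  nb : ℕ → ℕ
  base : Lab

/-- The part of a structured label which concerns the `τ`-th square around. -/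
def Lab.view (a : Lab) (τ : ℕ) : Lab where
  cls := a.cls
  rx := a.rx
  ry := a.ry
  r0 := a.r0
  r1 := a.r1
  lo := fun c => a.lo (9 * c + τ)
  hi := fun c => a.hi (9 * c + τ)
  vv := fun c => a.vv (9 * c + τ)
  s1 := fun c l => a.s1 (9 * c + τ) l
  s2 := fun c l => a.s2 (9 * c + τ) l

/-- The decoder for the structured labels of the local version: if the square of `b` is the `τ`-th
square around that of `a` (so that the square of `a` is the `(8 - τ)`-th square around that of `b`)
then compare the corresponding parts of the labels, otherwise the answer is `false`. -/
def LabL.dec (L : ℕ) (a b : LabL) : Bool :=
  (List.range 9).any (fun τ => decide (a.nb τ = b.cell) &&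
    Lab.dec L (a.base.view τ) (b.base.view (8 - τ)))

/-- Reading a bit string: the width `w` of the numbers in unary, ten numbers (`cell`, `nb 0`, ..,
`nb 8`), and a structured label. -/
def LabL.ofBits (s : List Bool) : LabL where
  cell := num (ones s) (rest s) 0
  nb := fun τ => num (ones s) (rest s) (τ + 1)
  base := Lab.ofBits ((rest s).drop (10 * ones s))

/-- **The decoder** of the local version. It gets the two labels (bit strings) and nothing else. -/
def decodeL (s t : List Bool) : Bool := LabL.dec (ones s) (LabL.ofBits s) (LabL.ofBits t)

end UDGConv
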