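import Pool.Agent.Lib.UDGConv.Defs

/-! Supporting lines of a convex set at its frontier points (module of `UDGConv`). -/

namespace UDGConv

private theorem supp_coord (f : Pl →ₗ[ℝ] ℝ) (q : Pl) :
    f q = q 0 * f (EuclideanSpace.single 0 1) + q 1 * f (EuclideanSpace.single 1 1) := by
  have h : q = q 0 • (EuclideanSpace.single 0 1 : Pl) + q 1 • (EuclideanSpace.single 1 1 : Pl) := by
    ext i
    fin_cases i <;> simp
  conv_lhs => rw [h]
  rw [map_add, map_smul, map_smul, smul_eq_mul, smul_eq_mul]

private theorem supp_fin (K : Set Pl) (a : Pl) (f : Pl →ₗ[ℝ] ℝ) (hf : f ≠ 0)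
    (h : ∀ q ∈ closure K, f q ≤ f a) :
    ∃ ν : ℝ × ℝ, ν ≠ 0 ∧ ∀ q ∈ frontier K, ν.1 * (q 0 - a 0) + ν.2 * (q 1 - a 1) ≤ 0 := by
  refine ⟨(f (EuclideanSpace.single 0 1), f (EuclideanSpace.single 1 1)), ?_, ?_⟩
  · intro h0
    apply hf
    rw [Prod.mk_eq_zero] at h0
    ext q
    rw [supp_coord f q, h0.1, h0.2]
    simp
  · intro q hq
    have h1 := h q (frontier_subset_closure hq)
    rw [supp_coord f q, supp_coord f a] at h1
    simp only
    linarith

/-- If the interior of `K` is nonempty: `geometric_hahn_banach_open_point` for `interior K` and `a`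
(`a` is not in the interior), then pass to the closure (`closure (interior K) = closure K`,
`Convex.closure_interior_eq_closure_of_nonempty_interior`). If it is empty: the affine span of `K` is not
everything (`interior_convexHull_nonempty_iff_affineSpan_eq_top` or
`Convex.interior_nonempty_iff_affineSpan_eq_top`), so a nonzero linear functional is constant on
`K` (for instance `Submodule.exists_le_ker_of_lt_top`), hence on its closure. Every linear functional is
`q ↦ ν.1 * q 0 + ν.2 * q 1`. -/
theorem supp {K : Set Pl} (hK : Convex ℝ K) {a : Pl} (ha : a ∈ frontier K) :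
    ∃ ν : ℝ × ℝ, ν ≠ 0 ∧ ∀ q ∈ frontier K, ν.1 * (q 0 - a 0) + ν.2 * (q 1 - a 1) ≤ 0 := by
  rcases (interior K).eq_empty_or_nonempty with hi | hi
  · have hne : K.Nonempty := by
      by_contra hK0
      rw [Set.not_nonempty_iff_eq_empty] at hK0
      rw [hK0] at ha
      simp at ha
    obtain ⟨x0, hx0⟩ := hne
    have hspan : affineSpan ℝ K ≠ ⊤ := by
      intro h
      have := (hK.interior_nonempty_iff_affineSpan_eq_top).2 h
      rw [hi] at this
      exact Set.not_nonempty_empty this
    have hdir : (affineSpan ℝ K).direction < ⊤ := by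
      rw [lt_top_iff_ne_top]
      intro h
      apply hspan
      exact (AffineSubspace.direction_eq_top_iff_of_nonempty
        ⟨x0, subset_affineSpan ℝ K hx0⟩).1 h
    obtain ⟨f, hf0, hf⟩ := Submodule.exists_le_ker_of_lt_top _ hdir
    have hc : ∀ q ∈ K, f q = f x0 := by
      intro q hq
      have h1 : q -ᵥ x0 ∈ (affineSpan ℝ K).direction :=
        AffineSubspace.vsub_mem_direction (subset_affineSpan ℝ K hq) (subset_affineSpan ℝ K hx0)
      have h2 := hf h1
      rw [LinearMap.mem_ker, vsub_eq_sub, map_sub, sub_eq_zero] at h2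
      exact h2
    have hcont : Continuous f := f.continuous_of_finiteDimensional
    have hcl : ∀ q ∈ closure K, f q = f x0 := by
      intro q hq
      have hsub : closure K ⊆ {q | f q = f x0} :=
        closure_minimal hc (isClosed_eq hcont continuous_const)
      exact hsub hq
    refine supp_fin K a f hf0 fun q hq => ?_
    rw [hcl q hq, hcl a (frontier_subset_closure ha)]
  · have hai : a ∉ interior K := ha.2
    obtain ⟨f, hf⟩ := geometric_hahn_banach_open_point hK.interior isOpen_interior hai
    refine supp_fin K a (f : Pl →ₗ[ℝ] ℝ) ?_ ?_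
    · intro h0
      obtain ⟨x, hx⟩ := hi
      have h1 := hf x hx
      have h2 : ∀ y, f y = 0 := fun y => by
        have := LinearMap.congr_fun h0 y
        simpa using this
      rw [h2, h2] at h1
      exact lt_irrefl _ h1
    · intro q hq
      rw [← hK.closure_interior_eq_closure_of_nonempty_interior hi] at hq
      have hsub : closure (interior K) ⊆ {q | f q ≤ f a} :=
        closure_minimal (fun q hq => (hf q hq).le) (isClosed_le f.continuous continuous_const)
      exact hsub hq

end UDGConv
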