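import Pool.Agent.Lib.UDGConv.Main
import Pool.Agent.Lib.UDGConv.Supp
import Pool.Agent.Lib.UDGConv.DecEnc

/-! The final theorem (module of `UDGConv`). -/

namespace UDGConv

/-- `Fam` for the points: for every `v` choose `i v` with `p v ∈ frontier (K (i v))`, `ν v` by `supp`,
the type `t v` by `exists_type`, `cls v = 4 * i v + t v < 4 * k`. -/
theorem exists_fam {k n : ℕ} {K : Fin k → Set Pl} (hK : ∀ i, Convex ℝ (K i)) {p : Fin n → Pl}
    (hp : ∀ v, ∃ i, p v ∈ frontier (K i)) :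
    ∃ (ν : Fin n → ℝ × ℝ) (cls : Fin n → ℕ), (∀ v, cls v < 4 * k) ∧
      Fam n (fun v => (p v 0, p v 1)) ν cls := by
  choose i hi using hp
  choose ν hν0 hν using fun v => supp (hK (i v)) (hi v)
  choose t ht hty using fun v => exists_type (ν v)
  refine ⟨ν, fun v => 4 * (i v : ℕ) + t v, fun v => ?_, hν0, fun v => ?_, fun u v huv => ?_⟩
  · have := (i v).isLt
    have := ht v
    show 4 * (i v : ℕ) + t v < 4 * k
    omega
  · have h1 : (4 * (i v : ℕ) + t v) % 4 = t v := by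
      have := ht v
      omega
    rw [h1]
    exact hty v
  · have h1 := ht v
    have h2 := ht u
    have h3 : i u = i v := Fin.ext (by omega)
    have h4 : p u ∈ frontier (K (i v)) := h3 ▸ hi u
    exact hν v (p u) h4

theorem sqd_iff (a b : Pl) : sqd (a 0, a 1) (b 0, b 1) ≤ 1 ↔ dist a b ≤ 1 := by
  rw [EuclideanSpace.dist_eq, Real.sqrt_le_iff]
  simp only [sqd, Fin.sum_univ_two, Real.dist_eq, sq_abs, one_pow, zero_le_one, true_and]

/-- One decoder for everything; the labels have `O(k log² n)` bits. With `w = Nat.size (n + 1)`: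
`n + 2 ≤ 2 ^ w`, `w ≤ 2 * (Nat.log 2 n + 1)`, `enc_length`, `main_lab` (`L = w`), `decode_enc`
(`4 * k` classes). -/
theorem main {k n : ℕ} {K : Fin k → Set Pl} (hK : ∀ i, Convex ℝ (K i))
    {p : Fin n → Pl} (hp : ∀ v, ∃ i, p v ∈ frontier (K i)) :
    ∃ lab : Fin n → List Bool, (∀ v, (lab v).length ≤ 100 * k * (Nat.log 2 n + 1) ^ 2) ∧
      ∀ u v, (decode (lab u) (lab v) = true ↔ dist (p u) (p v) ≤ 1) := by
  obtain ⟨ν, cls, hcls, hF⟩ := exists_fam hK hp
  set w := Nat.size (n + 1) with hw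
  have hw1 : n + 1 < 2 ^ w := Nat.lt_size_self _
  have hl : 1 ≤ Nat.log 2 n + 1 := by omega
  have hw2 : w ≤ 2 * (Nat.log 2 n + 1) := by
    rw [hw, Nat.size_le]
    have h1 : n < 2 ^ (Nat.log 2 n + 1) := Nat.lt_pow_succ_log_self (by norm_num) n
    have h2 : 2 ^ (Nat.log 2 n + 1) < 2 ^ (2 * (Nat.log 2 n + 1)) :=
      Nat.pow_lt_pow_right (by norm_num) (by omega)
    omega
  obtain ⟨lab, h1, h2, h3⟩ := main_lab (L := w) (by omega) hF
  have hB : ∀ v, (lab v).Bd (2 ^ w) := by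
    intro v
    obtain ⟨b1, b2, b3, b4, b5⟩ := h2 v
    refine ⟨by omega, by omega, by omega, by omega, fun c => ?_⟩
    obtain ⟨c1, c2, c3, c4⟩ := b5 c
    refine ⟨by omega, by omega, by omega, fun l => ?_⟩
    obtain ⟨d1, d2⟩ := c4 l
    exact ⟨by omega, by omega⟩
  refine ⟨fun v => enc w (4 * k) (lab v), fun v => ?_, fun u v => ?_⟩
  · have hc := hcls v
    have hk : 1 ≤ k := by omega
    rw [enc_length, h1 v]
    generalize Nat.log 2 n + 1 = l at hl hw2 ⊢
    have e1 : (4 + 4 * k * (3 + 2 * w)) * w ≤ (4 + 4 * k * (3 + 2 * (2 * l))) * (2 * l) := by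
      gcongr
    have e2 : l ≤ k * l ^ 2 := by nlinarith [Nat.mul_le_mul hk (Nat.mul_le_mul hl (le_refl l))]
    have e3 : k ≤ k * l ^ 2 := by nlinarith [Nat.mul_le_mul (le_refl k) (Nat.mul_le_mul hl hl)]
    have e4 : 1 ≤ k * l ^ 2 := le_trans hk e3
    have e5 : k * l ≤ k * l ^ 2 := by
      nlinarith [Nat.mul_le_mul (le_refl k) (Nat.mul_le_mul hl (le_refl l))]
    have e6 : (4 + 4 * k * (3 + 2 * (2 * l))) * (2 * l) = 8 * l + 24 * (k * l) + 32 * (k * l ^ 2) := by
      ring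
    have e7 : 100 * k * l ^ 2 = 100 * (k * l ^ 2) := by ring
    rw [e7]
    omega
  · rw [decode_enc (by rw [h1]; exact hcls u) (by rw [h1]; exact hcls v) (hB u) (hB v), h3 u v]
    exact sqd_iff (p u) (p v)

end UDGConv
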