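import Pool.Agent.Lib.UDGConv.Final
import Pool.Agent.Lib.UDGConv.DecL

/-! The local version: in every unit square the centres lie on at most `k` convex curves (module of
`UDGConv`). -/

namespace UDGConv

/-- The offset of the `τ`-th square around. -/
def off (τ : ℕ) : ℤ × ℤ := ((τ / 3 : ℕ) - 1, (τ % 3 : ℕ) - 1)

theorem off_symm {τ : ℕ} (h : τ < 9) : off (8 - τ) + off τ = 0 := by
  unfold off
  interval_cases τ <;> simp <;> norm_num

theorem floor_near {x y : ℝ} (h : |x - y| ≤ 1) :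
    ⌊y⌋ - ⌊x⌋ = -1 ∨ ⌊y⌋ - ⌊x⌋ = 0 ∨ ⌊y⌋ - ⌊x⌋ = 1 := by
  rw [abs_le] at h
  have h1 : ⌊y⌋ ≤ ⌊x⌋ + 1 := by
    have : ⌊y⌋ ≤ ⌊x + 1⌋ := Int.floor_le_floor (by linarith)
    rwa [Int.floor_add_one] at this
  have h2 : ⌊x⌋ ≤ ⌊y⌋ + 1 := by
    have : ⌊x⌋ ≤ ⌊y + 1⌋ := Int.floor_le_floor (by linarith)
    rwa [Int.floor_add_one] at this
  omega

/-- The unit square of a point. -/
noncomputable def sqr (a : Pl) : ℤ × ℤ := (⌊a 0⌋, ⌊a 1⌋)

theorem exists_off {a b : Pl} (h : dist a b ≤ 1) : ∃ τ < 9, sqr b = sqr a + off τ := by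
  rw [EuclideanSpace.dist_eq, Real.sqrt_le_iff] at h
  simp only [Fin.sum_univ_two, Real.dist_eq, sq_abs, one_pow] at h
  have hx : |a 0 - b 0| ≤ 1 := by
    rw [← sq_le_one_iff_abs_le_one]
    nlinarith [h.2, sq_nonneg (a 1 - b 1)]
  have hy : |a 1 - b 1| ≤ 1 := by
    rw [← sq_le_one_iff_abs_le_one]
    nlinarith [h.2, sq_nonneg (a 0 - b 0)]
  unfold sqr off
  rcases floor_near hx with h1 | h1 | h1 <;> rcases floor_near hy with h2 | h2 | h2
  · exact ⟨0, by norm_num, by ext <;> simp <;> omega⟩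
  · exact ⟨1, by norm_num, by ext <;> simp <;> omega⟩
  · exact ⟨2, by norm_num, by ext <;> simp <;> omega⟩
  · exact ⟨3, by norm_num, by ext <;> simp <;> omega⟩
  · exact ⟨4, by norm_num, by ext <;> simp <;> omega⟩
  · exact ⟨5, by norm_num, by ext <;> simp <;> omega⟩
  · exact ⟨6, by norm_num, by ext <;> simp <;> omega⟩
  · exact ⟨7, by norm_num, by ext <;> simp <;> omega⟩
  · exact ⟨8, by norm_num, by ext <;> simp <;> omega⟩

open Classical in
/-- The name of a square: a vertex in it, or `n` if there is none. -/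
noncomputable def nam {n : ℕ} (c : Fin n → ℤ × ℤ) (q : ℤ × ℤ) : ℕ :=
  if h : ∃ u, c u = q then (Classical.choose h).val else n

theorem nam_lt {n : ℕ} (c : Fin n → ℤ × ℤ) (v : Fin n) : nam c (c v) < n := by
  unfold nam
  rw [dif_pos ⟨v, rfl⟩]
  exact Fin.isLt _

theorem nam_le {n : ℕ} (c : Fin n → ℤ × ℤ) (q : ℤ × ℤ) : nam c q ≤ n := by
  unfold nam
  split
  · exact (Fin.isLt _).le
  · exact le_rfl

theorem nam_inj {n : ℕ} (c : Fin n → ℤ × ℤ) (q : ℤ × ℤ) (v : Fin n) (h : nam c q = nam c (c v)) :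
    q = c v := by
  by_cases hq : ∃ u, c u = q
  · have hv : ∃ u, c u = c v := ⟨v, rfl⟩
    unfold nam at h
    rw [dif_pos hq, dif_pos hv] at h
    have h1 := Classical.choose_spec hq
    have h2 := Classical.choose_spec hv
    rw [← h1, Fin.ext h, h2]
  · exfalso
    have h1 : nam c q = n := by
      unfold nam
      rw [dif_neg hq]
    have h2 := nam_lt c v
    omega

/-- **The local version.** If in every unit square `[a, a+1) × [b, b+1)` the centres lie on the
boundaries of `k` convex sets then the labels have `O(k log² n)` bits. -/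
theorem mainL {k n : ℕ} {K : ℤ → ℤ → Fin k → Set Pl} (hK : ∀ a b i, Convex ℝ (K a b i))
    {p : Fin n → Pl} (hp : ∀ v, ∃ i, p v ∈ frontier (K ⌊p v 0⌋ ⌊p v 1⌋ i)) :
    ∃ lab : Fin n → List Bool, (∀ v, (lab v).length ≤ 600 * k * (Nat.log 2 n + 1) ^ 2) ∧
      ∀ u v, (decodeL (lab u) (lab v) = true ↔ dist (p u) (p v) ≤ 1) := by
  choose i hi using hp
  choose ν hν0 hν using fun v => supp (hK _ _ (i v)) (hi v)
  choose t ht hty using fun v => exists_type (ν v)
  set c : Fin n → ℤ × ℤ := fun v => sqr (p v) with hc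
  set g : Fin n → ℕ := fun v => nam c (c v) with hg
  set loc : Fin n → ℕ := fun v => 4 * (i v).val + t v with hloc
  set cls : Fin n → ℕ := fun v => 4 * k * g v + loc v with hcls
  have hloc_lt : ∀ v, loc v < 4 * k := by
    intro v
    have h1 := ht v
    have h2 := (i v).isLt
    simp only [hloc]
    omega
  have hcls4 : ∀ v, cls v % 4 = t v := by
    intro v
    have h1 := ht v
    have h3 : cls v = t v + 4 * (k * g v + (i v).val) := by
      simp only [hcls, hloc]; ring
    rw [h3, Nat.add_mul_mod_self_left, Nat.mod_eq_of_lt h1]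
  have hsame : ∀ u v, cls u = cls v → g u = g v ∧ loc u = loc v := by
    intro u v h
    have h1 := hloc_lt u
    have h2 := hloc_lt v
    have h3 : 4 * k * g u + loc u = 4 * k * g v + loc v := h
    have e1 : (4 * k * g u + loc u) / (4 * k) = g u := by
      rw [Nat.mul_add_div (by omega), Nat.div_eq_of_lt h1, add_zero]
    have e2 : (4 * k * g v + loc v) / (4 * k) = g v := by
      rw [Nat.mul_add_div (by omega), Nat.div_eq_of_lt h2, add_zero]
    have e3 : g u = g v := by rw [← e1, ← e2, h3]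
    refine ⟨e3, ?_⟩
    rw [e3] at h3
    omega
  have hF : Fam n (fun v => (p v 0, p v 1)) ν cls := by
    refine ⟨hν0, fun v => ?_, fun u v huv => ?_⟩
    · rw [hcls4 v]; exact hty v
    · obtain ⟨h1, h2⟩ := hsame u v huv
      have h3 : c u = c v := nam_inj c (c u) v h1
      have h4 := ht u
      have h5 := ht v
      have h6 : i u = i v := Fin.ext (by simp only [hloc] at h2; omega)
      have h7 : (⌊p u 0⌋, ⌊p u 1⌋) = ((⌊p v 0⌋, ⌊p v 1⌋) : ℤ × ℤ) := h3
      have h8 := Prod.mk.inj h7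
      have h9 : p u ∈ frontier (K ⌊p v 0⌋ ⌊p v 1⌋ (i v)) := by
        have := hi u
        rwa [h8.1, h8.2, h6] at this
      exact hν v (p u) h9
  set w := Nat.size (n + 1) with hw
  have hw1 : n + 1 < 2 ^ w := Nat.lt_size_self _
  have hl : 1 ≤ Nat.log 2 n + 1 := by omega
  have hw2 : w ≤ 2 * (Nat.log 2 n + 1) := by
    rw [hw, Nat.size_le]
    have h1 : n < 2 ^ (Nat.log 2 n + 1) := Nat.lt_pow_succ_log_self (by norm_num) n
    have h2 : 2 ^ (Nat.log 2 n + 1) < 2 ^ (2 * (Nat.log 2 n + 1)) :=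
      Nat.pow_lt_pow_right (by norm_num) (by omega)
    omega
  obtain ⟨lab, h1, h2, h3⟩ := main_lab (L := w) (by omega) hF
  have hB : ∀ v, (lab v).Bd (2 ^ w) := by
    intro v
    obtain ⟨b1, b2, b3, b4, b5⟩ := h2 v
    refine ⟨by omega, by omega, by omega, by omega, fun c => ?_⟩
    obtain ⟨c1, c2, c3, c4⟩ := b5 c
    refine ⟨by omega, by omega, by omega, fun l => ?_⟩
    obtain ⟨d1, d2⟩ := c4 l
    exact ⟨by omega, by omega⟩
  let nb : Fin n → ℕ → ℕ := fun v τ => nam c (c v + off τ)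
  let base : Fin n → Lab := fun v =>
    { cls := loc v
      rx := (lab v).rx
      ry := (lab v).ry
      r0 := (lab v).r0
      r1 := (lab v).r1
      lo := fun C => (lab v).lo (4 * k * nb v (C % 9) + C / 9)
      hi := fun C => (lab v).hi (4 * k * nb v (C % 9) + C / 9)
      vv := fun C => (lab v).vv (4 * k * nb v (C % 9) + C / 9)
      s1 := fun C l => (lab v).s1 (4 * k * nb v (C % 9) + C / 9) l
      s2 := fun C l => (lab v).s2 (4 * k * nb v (C % 9) + C / 9) l }
  have hBb : ∀ v, (base v).Bd (2 ^ w) := by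
    intro v
    obtain ⟨b1, b2, b3, b4, b5⟩ := hB v
    exact ⟨b1, b2, b3, b4, fun C => b5 _⟩
  have hidx : ∀ v m τ, τ < 9 → 4 * k * nb v ((9 * m + τ) % 9) + (9 * m + τ) / 9 =
      4 * k * nb v τ + m := by
    intro v m τ hτ
    have e1 : (9 * m + τ) % 9 = τ := by omega
    have e2 : (9 * m + τ) / 9 = m := by omega
    rw [e1, e2]
  have hdec : ∀ u v τ, τ < 9 → nb u τ = g v → nb v (8 - τ) = g u →
      Lab.dec w ((base u).view τ) ((base v).view (8 - τ)) = Lab.dec w (lab u) (lab v) := by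
    intro u v τ hτ huv hvu
    have hcu : loc u % 4 = (lab u).cls % 4 := by
      rw [h1 u]
      have : cls u = loc u + 4 * (k * g u) := by simp only [hcls]; ring
      rw [this, Nat.add_mul_mod_self_left]
    have hcv : loc v % 4 = (lab v).cls % 4 := by
      rw [h1 v]
      have : cls v = loc v + 4 * (k * g v) := by simp only [hcls]; ring
      rw [this, Nat.add_mul_mod_self_left]
    have iu : 4 * k * nb u ((9 * loc v + τ) % 9) + (9 * loc v + τ) / 9 = (lab v).cls := by
      rw [hidx u (loc v) τ hτ, huv, h1 v]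
    have iv : 4 * k * nb v ((9 * loc u + (8 - τ)) % 9) + (9 * loc u + (8 - τ)) / 9 =
        (lab u).cls := by
      rw [hidx v (loc u) (8 - τ) (by omega), hvu, h1 u]
    refine dec_congr ⟨hcu, rfl, rfl, rfl, rfl⟩ ⟨hcv, rfl, rfl, rfl, rfl⟩ ?_ ?_
    · exact ⟨congrArg (lab u).lo iu, congrArg (lab u).hi iu, congrArg (lab u).vv iu,
        fun l _ => ⟨congrArg (fun x => (lab u).s1 x l) iu, congrArg (fun x => (lab u).s2 x l) iu⟩⟩
    · exact ⟨congrArg (lab v).lo iv, congrArg (lab v).hi iv, congrArg (lab v).vv iv,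
        fun l _ => ⟨congrArg (fun x => (lab v).s1 x l) iv, congrArg (fun x => (lab v).s2 x l) iv⟩⟩
  let lL : Fin n → LabL := fun v => { cell := g v, nb := nb v, base := base v }
  refine ⟨fun v => encL w (9 * (4 * k)) (lL v), fun v => ?_, fun u v => ?_⟩
  · have hcv := hloc_lt v
    have hk : 1 ≤ k := by omega
    rw [encL_length, enc_length]
    change w + 1 + 10 * w + (w + loc v + 2 + (4 + 9 * (4 * k) * (3 + 2 * w)) * w) ≤ _
    generalize Nat.log 2 n + 1 = l at hl hw2 ⊢
    have e1 : (4 + 9 * (4 * k) * (3 + 2 * w)) * w ≤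
        (4 + 9 * (4 * k) * (3 + 2 * (2 * l))) * (2 * l) := by
      gcongr
    have e2 : l ≤ k * l ^ 2 := by nlinarith [Nat.mul_le_mul hk (Nat.mul_le_mul hl (le_refl l))]
    have e3 : k ≤ k * l ^ 2 := by nlinarith [Nat.mul_le_mul (le_refl k) (Nat.mul_le_mul hl hl)]
    have e4 : 1 ≤ k * l ^ 2 := le_trans hk e3
    have e5 : k * l ≤ k * l ^ 2 := by
      nlinarith [Nat.mul_le_mul (le_refl k) (Nat.mul_le_mul hl (le_refl l))]
    have e6 : (4 + 9 * (4 * k) * (3 + 2 * (2 * l))) * (2 * l) =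
        8 * l + 216 * (k * l) + 288 * (k * l ^ 2) := by
      ring
    have e7 : 600 * k * l ^ 2 = 600 * (k * l ^ 2) := by ring
    rw [e7]
    omega
  · have hgw : ∀ v, g v < 2 ^ w := fun v => by
      have := nam_lt c v
      have : g v < n := this
      omega
    have hnw : ∀ v τ, nb v τ < 2 ^ w := fun v τ => by
      have : nb v τ ≤ n := nam_le c _
      omega
    rw [decodeL_encL (hloc_lt u) (hloc_lt v) (hBb u) (hBb v) (hgw u) (hgw v) (hnw u),
      labL_dec_iff, ← sqd_iff, ← h3 u v]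
    have hback : ∀ τ < 9, nb u τ = g v → nb v (8 - τ) = g u := by
      intro τ hτ h
      have e1 : c u + off τ = c v := nam_inj c _ v h
      have e2 : c v + off (8 - τ) = c u := by
        have := off_symm hτ
        rw [← e1, add_assoc, add_comm (off τ), this, add_zero]
      change nam c (c v + off (8 - τ)) = nam c (c u)
      rw [e2]
    constructor
    · rintro ⟨τ, hτ, e1, e2⟩
      rw [← hdec u v τ hτ e1 (hback τ hτ e1)]
      exact e2
    · intro h
      have hd : dist (p u) (p v) ≤ 1 := (sqd_iff _ _).1 ((h3 u v).1 h)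
      obtain ⟨τ, hτ, e⟩ := exists_off hd
      have e1 : nb u τ = g v := by
        change nam c (c u + off τ) = nam c (c v)
        rw [show c u + off τ = c v from e.symm]
      refine ⟨τ, hτ, e1, ?_⟩
      change Lab.dec w ((base u).view τ) ((base v).view (8 - τ)) = true
      rw [hdec u v τ hτ e1 (hback τ hτ e1)]
      exact h

end UDGConv
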