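import Pool.Agent.Lib.UDGConv.Near
import Pool.Agent.Lib.UDGConv.Chain

/-! The intervals (module of `UDGConv`; paper section 2). -/

namespace UDGConv

/-- `lo` = least rank, `hi` = largest rank of an `a` with `S a`, `Adj a` (if there is none:
`lo = n + 1`, `hi = 0`). -/
theorem interval_exists {n : ℕ} {r : Fin n → ℕ} (h1 : ∀ v, 1 ≤ r v) (h2 : ∀ v, r v ≤ n)
    (S Adj NF : Fin n → Prop)
    (h : ∀ a a' a'', S a → S a' → S a'' → r a ≤ r a' → r a' ≤ r a'' → NF a' → Adj a → Adj a'' →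
      Adj a') :
    ∃ lo hi : ℕ, lo ≤ n + 1 ∧ hi ≤ n + 1 ∧ ∀ a, S a → NF a → (Adj a ↔ lo ≤ r a ∧ r a ≤ hi) := by
  classical
  by_cases hne : ∃ a, S a ∧ Adj a
  · have hW : (Finset.univ.filter fun a : Fin n => S a ∧ Adj a).Nonempty := by
      obtain ⟨a, ha⟩ := hne
      exact ⟨a, by simp [ha]⟩
    obtain ⟨a0, ha0, hmin⟩ := Finset.exists_min_image _ r hW
    obtain ⟨a1, ha1, hmax⟩ := Finset.exists_max_image _ r hW
    rw [Finset.mem_filter] at ha0 ha1
    refine ⟨r a0, r a1, by have := h2 a0; omega, by have := h2 a1; omega, fun a ha hn => ?_⟩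
    constructor
    · intro hA
      have hm : a ∈ Finset.univ.filter fun a : Fin n => S a ∧ Adj a := by simp [ha, hA]
      exact ⟨hmin a hm, hmax a hm⟩
    · rintro ⟨h3, h4⟩
      exact h a0 a a1 ha0.2.1 ha ha1.2.1 h3 h4 hn ha0.2.2 ha1.2.2
  · refine ⟨n + 1, 0, le_rfl, by omega, fun a ha _ => ?_⟩
    constructor
    · intro hA
      exact absurd ⟨a, ha, hA⟩ hne
    · rintro ⟨_, h4⟩
      have := h1 a
      omega

/-- From `interval_exists`, `near_pos` / `near_neg` (for the points `fl t _`) and `Fam.chain`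
(if `r a = r a'` then `a = a'` by injectivity, otherwise `Rk.mono`). -/
theorem intLab {n : ℕ} {p ν : Fin n → ℝ × ℝ} {cls : Fin n → ℕ} (h : Fam n p ν cls) (c : ℕ)
    {r : Fin n → ℕ} (hr : Rk n (fun v => key (c % 4) (p v)) r) (b : ℝ × ℝ) :
    ∃ lo hi : ℕ, lo ≤ n + 1 ∧ hi ≤ n + 1 ∧ ∀ a, cls a = c → ¬ Far (c % 4) (p a) b →
      (sqd (p a) b ≤ 1 ↔ lo ≤ r a ∧ r a ≤ hi) := by
  refine interval_exists hr.pos hr.le (fun a => cls a = c) (fun a => sqd (p a) b ≤ 1)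
    (fun a => ¬ Far (c % 4) (p a) b) ?_
  intro a a' a'' ha ha' ha'' h1 h2 nf d1 d2
  rcases h1.lt_or_eq with h1 | h1
  swap
  · rw [← hr.inj h1]
    exact d1
  rcases h2.lt_or_eq with h2 | h2
  swap
  · rw [hr.inj h2]
    exact d2
  have k1 : key (c % 4) (p a) ≤ key (c % 4) (p a') := hr.mono a a' h1
  have k2 : key (c % 4) (p a') ≤ key (c % 4) (p a'') := hr.mono a' a'' h2
  have c1 := h.chain (u := a) (v := a') (ha.trans ha'.symm) (by rw [ha']; exact k1)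
  have c2 := h.chain (u := a') (v := a'') (ha'.trans ha''.symm) (by rw [ha'']; exact k2)
  rw [ha'] at c1
  rw [ha''] at c2
  have s1 := h.sup_fl (c % 4) (u := a) (v := a') (ha.trans ha'.symm)
  have s2 := h.sup_fl (c % 4) (u := a'') (v := a') (ha''.trans ha'.symm)
  have ty := h.ty a'
  rw [ha'] at ty
  have hne := fl_ne (c % 4) (h.ne a')
  show sqd (p a') b ≤ 1
  rw [← sqd_fl (c % 4)] at d1 d2 ⊢
  unfold TypeOK at ty
  unfold Far at nf
  split_ifs at ty nf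
  · exact near_neg hne ty.1 ty.2 c1.1 c1.2 c2.1 c2.2 s1 s2 nf d1 d2
  · exact near_pos hne ty.1 ty.2 c1.1 c1.2 c2.1 c2.2 s1 s2 nf d1 d2

end UDGConv
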