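import Pool.Agent.Lib.UDGConv.Defs

/-! Rank functions (module of `UDGConv`). -/

namespace UDGConv

/-- `r v = (Tuple.sort k)⁻¹ v + 1`. -/
theorem exists_rk (n : ℕ) (k : Fin n → ℝ) : ∃ r : Fin n → ℕ, Rk n k r := by
  refine ⟨fun v => (((Tuple.sort k)⁻¹ v : Fin n) : ℕ) + 1, ?_, ?_, ?_, ?_⟩
  · intro u v h
    have h1 : (((Tuple.sort k)⁻¹ u : Fin n) : ℕ) = (((Tuple.sort k)⁻¹ v : Fin n) : ℕ) := by
      simpa using h
    exact (Tuple.sort k)⁻¹.injective (Fin.ext h1)
  · intro v; exact Nat.succ_le_succ (Nat.zero_le _)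
  · intro v; exact ((Tuple.sort k)⁻¹ v).2
  · intro u v h
    have h1 : (Tuple.sort k)⁻¹ u ≤ (Tuple.sort k)⁻¹ v := by
      rw [Fin.le_def]
      omega
    have h2 := Tuple.monotone_sort k h1
    simpa using h2

/-- `r v` = number of `u` with `k u < k v`. -/
theorem exists_srank (n : ℕ) (k : Fin n → ℝ) :
    ∃ r : Fin n → ℕ, (∀ v, r v ≤ n) ∧ ∀ u v, (r u < r v ↔ k u < k v) := by
  classical
  refine ⟨fun v => (Finset.univ.filter fun u => k u < k v).card, ?_, ?_⟩
  · intro v
    calc (Finset.univ.filter fun u => k u < k v).card ≤ (Finset.univ : Finset (Fin n)).card :=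
          Finset.card_le_card (Finset.filter_subset _ _)
      _ = n := by simp
  · intro u v
    constructor
    · intro h
      by_contra hc
      push Not at hc
      refine absurd h (not_lt.2 (Finset.card_le_card ?_))
      intro w hw
      rw [Finset.mem_filter] at hw ⊢
      exact ⟨hw.1, lt_of_lt_of_le hw.2 hc⟩
    · intro h
      apply Finset.card_lt_card
      rw [Finset.ssubset_iff_of_subset]
      · exact ⟨u, by simpa using h, by simp⟩
      · intro w hw
        rw [Finset.mem_filter] at hw ⊢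
        exact ⟨hw.1, hw.2.trans h⟩

end UDGConv
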