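import Pool.Agent.Lib.UDGConv.Defs

/-! The near lemma and the sign of the cross product (module of `UDGConv`; paper sections 1, 2). -/

namespace UDGConv

/-- Put `a' - a = (p, -q)`, `a'' - a' = (r, -s)` with `p, q, r, s ≥ 0`, `w = b - a'`.
If `b.1 ≥ a'.1`, `b.2 ≤ a'.2` then `a` is further from `b` in both coordinates; if `b.1 ≤ a'.1`,
`b.2 ≥ a'.2` then `a''` is. Otherwise `w ≥ 0`; if `w.1 p ≥ w.2 q` then
`sqd a b = sqd a' b + 2 (w.1 p - w.2 q) + p^2 + q^2`; if `w.2 s ≥ w.1 r` the same with `a''`.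
If both fail then `w.1, w.2 > 0`, `p s < q r`, `q, r > 0`, but `ν.1 p ≥ ν.2 q`, `ν.2 s ≥ ν.1 r` give
`ν.1, ν.2 > 0` and `p s ≥ q r`. -/
theorem near_pos {a a' a'' b ν : ℝ × ℝ} (hν : ν ≠ 0) (h1 : 0 ≤ ν.1) (h2 : 0 ≤ ν.2)
    (m1 : a.1 ≤ a'.1) (m2 : a'.2 ≤ a.2) (m3 : a'.1 ≤ a''.1) (m4 : a''.2 ≤ a'.2)
    (s1 : ν.1 * (a.1 - a'.1) + ν.2 * (a.2 - a'.2) ≤ 0)
    (s2 : ν.1 * (a''.1 - a'.1) + ν.2 * (a''.2 - a'.2) ≤ 0)
    (nf : ¬ (b.1 < a'.1 ∧ b.2 < a'.2)) (d1 : sqd a b ≤ 1) (d2 : sqd a'' b ≤ 1) :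
    sqd a' b ≤ 1 := by
  obtain ⟨x, y⟩ := a
  obtain ⟨x', y'⟩ := a'
  obtain ⟨x'', y''⟩ := a''
  obtain ⟨b1, b2⟩ := b
  obtain ⟨n1, n2⟩ := ν
  simp only [sqd] at *
  have hn : ¬ (n1 = 0 ∧ n2 = 0) := fun h => hν (by rw [h.1, h.2]; rfl)
  obtain ⟨p, hp⟩ : ∃ p, p = x' - x := ⟨_, rfl⟩
  obtain ⟨q, hq⟩ : ∃ q, q = y - y' := ⟨_, rfl⟩
  obtain ⟨r, hr⟩ : ∃ r, r = x'' - x' := ⟨_, rfl⟩
  obtain ⟨s, hs⟩ : ∃ s, s = y' - y'' := ⟨_, rfl⟩
  obtain ⟨w1, hw1⟩ : ∃ w, w = b1 - x' := ⟨_, rfl⟩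
  obtain ⟨w2, hw2⟩ : ∃ w, w = b2 - y' := ⟨_, rfl⟩
  have hp0 : 0 ≤ p := by linarith
  have hq0 : 0 ≤ q := by linarith
  have hr0 : 0 ≤ r := by linarith
  have hs0 : 0 ≤ s := by linarith
  have e1 : (x - b1) ^ 2 + (y - b2) ^ 2 = w1 ^ 2 + w2 ^ 2 + 2 * (w1 * p - w2 * q) + p ^ 2 + q ^ 2 := by
    rw [hp, hq, hw1, hw2]; ring
  have e2 : (x'' - b1) ^ 2 + (y'' - b2) ^ 2 =
      w1 ^ 2 + w2 ^ 2 + 2 * (w2 * s - w1 * r) + r ^ 2 + s ^ 2 := by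
    rw [hr, hs, hw1, hw2]; ring
  have e3 : (x' - b1) ^ 2 + (y' - b2) ^ 2 = w1 ^ 2 + w2 ^ 2 := by
    rw [hw1, hw2]; ring
  have t1 : n2 * q ≤ n1 * p := by rw [hp, hq]; linarith
  have t2 : n1 * r ≤ n2 * s := by rw [hr, hs]; linarith
  rw [e1] at d1
  rw [e2] at d2
  rw [e3]
  by_contra hlt
  push Not at hlt
  have g1 : w1 * p < w2 * q := by nlinarith [sq_nonneg p, sq_nonneg q]
  have g2 : w2 * s < w1 * r := by nlinarith [sq_nonneg r, sq_nonneg s]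
  have nf' : ¬ (w1 < 0 ∧ w2 < 0) := fun h => nf ⟨by linarith [h.1], by linarith [h.2]⟩
  have hw1p : 0 < w1 := by
    by_contra h
    push Not at h
    have h2 : 0 ≤ w2 := by
      by_contra h3
      push Not at h3
      rcases lt_or_eq_of_le h with h4 | h4
      · exact nf' ⟨h4, h3⟩
      · rw [h4] at g1
        nlinarith
    nlinarith [mul_nonneg h2 hs0, mul_nonneg (neg_nonneg.mpr h) hr0]
  have hw2p : 0 < w2 := by
    by_contra h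
    push Not at h
    nlinarith [mul_nonneg hw1p.le hp0, mul_nonneg (neg_nonneg.mpr h) hq0]
  have k1 : 0 ≤ w1 * p := mul_nonneg hw1p.le hp0
  have k2 : 0 ≤ w2 * s := mul_nonneg hw2p.le hs0
  have k3 : (w1 * p) * (w2 * s) < (w2 * q) * (w1 * r) :=
    mul_lt_mul'' g1 g2 k1 k2
  have hq1 : 0 < q := by
    by_contra h
    push Not at h
    nlinarith [mul_nonneg hw2p.le (neg_nonneg.mpr h)]
  have hr1 : 0 < r := by
    by_contra h
    push Not at h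
    nlinarith [mul_nonneg hw1p.le (neg_nonneg.mpr h)]
  have hn1 : 0 < n1 := by
    rcases lt_or_eq_of_le h1 with h | h
    · exact h
    · exfalso
      apply hn
      refine ⟨h.symm, ?_⟩
      rw [← h] at t1
      have : n2 * q ≤ 0 := by linarith
      by_contra h5
      have : 0 < n2 := lt_of_le_of_ne h2 (Ne.symm h5)
      nlinarith [mul_pos this hq1]
  have hn2 : 0 < n2 := by
    rcases lt_or_eq_of_le h2 with h | h
    · exact h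
    · exfalso
      rw [← h] at t2
      nlinarith [mul_pos hn1 hr1]
  have k4 : (n2 * q) * (n1 * r) ≤ (n1 * p) * (n2 * s) :=
    mul_le_mul t1 t2 (by positivity) (by positivity)
  have k5 : q * r ≤ p * s := by
    have : (n1 * n2) * (q * r) ≤ (n1 * n2) * (p * s) := by linarith
    exact le_of_mul_le_mul_left this (mul_pos hn1 hn2)
  have k6 : (w1 * w2) * (q * r) ≤ (w1 * w2) * (p * s) :=
    mul_le_mul_of_nonneg_left k5 (mul_pos hw1p hw2p).le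
  linarith

/-- The same for normals `≤ 0` (apply `near_pos` to the points `-a''`, `-a'`, `-a`, `-b` and `-ν`). -/
theorem near_neg {a a' a'' b ν : ℝ × ℝ} (hν : ν ≠ 0) (h1 : ν.1 ≤ 0) (h2 : ν.2 ≤ 0)
    (m1 : a.1 ≤ a'.1) (m2 : a'.2 ≤ a.2) (m3 : a'.1 ≤ a''.1) (m4 : a''.2 ≤ a'.2)
    (s1 : ν.1 * (a.1 - a'.1) + ν.2 * (a.2 - a'.2) ≤ 0)
    (s2 : ν.1 * (a''.1 - a'.1) + ν.2 * (a''.2 - a'.2) ≤ 0)
    (nf : ¬ (a'.1 < b.1 ∧ a'.2 < b.2)) (d1 : sqd a b ≤ 1) (d2 : sqd a'' b ≤ 1) :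
    sqd a' b ≤ 1 := by
  have hs : ∀ u v : ℝ × ℝ, sqd (-u) (-v) = sqd u v := by
    intro u v
    simp only [sqd, Prod.fst_neg, Prod.snd_neg]
    ring
  have := near_pos (a := -a'') (a' := -a') (a'' := -a) (b := -b) (ν := -ν) (neg_ne_zero.mpr hν)
    (by simpa using h1) (by simpa using h2) (by simpa using m3) (by simpa using m4)
    (by simpa using m1) (by simpa using m2)
    (by simp only [Prod.fst_neg, Prod.snd_neg]; linarith)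
    (by simp only [Prod.fst_neg, Prod.snd_neg]; linarith)
    (by simp only [Prod.fst_neg, Prod.snd_neg]; intro h; exact nf ⟨by linarith [h.1], by linarith [h.2]⟩)
    (by rw [hs]; exact d2) (by rw [hs]; exact d1)
  rwa [hs] at this

/-- Normals `≤ 0`: with `a' - a = (p, -q)`, `a'' - a' = (r, -s)`: `|ν1| p ≤ |ν2| q`,
`|ν2| s ≤ |ν1| r`, hence `p s ≤ q r` (also if one of the `ν`s is `0`), and the cross product is
`q r - p s`. -/
theorem cross_neg {a a' a'' ν : ℝ × ℝ} (hν : ν ≠ 0) (h1 : ν.1 ≤ 0) (h2 : ν.2 ≤ 0)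
    (m1 : a.1 ≤ a'.1) (m2 : a'.2 ≤ a.2) (m3 : a'.1 ≤ a''.1) (m4 : a''.2 ≤ a'.2)
    (s1 : ν.1 * (a.1 - a'.1) + ν.2 * (a.2 - a'.2) ≤ 0)
    (s2 : ν.1 * (a''.1 - a'.1) + ν.2 * (a''.2 - a'.2) ≤ 0) :
    0 ≤ (a'.1 - a.1) * (a''.2 - a.2) - (a'.2 - a.2) * (a''.1 - a.1) := by
  obtain ⟨x, y⟩ := a
  obtain ⟨x', y'⟩ := a'
  obtain ⟨x'', y''⟩ := a''
  obtain ⟨n1, n2⟩ := ν
  simp only at *
  have hn : ¬ (n1 = 0 ∧ n2 = 0) := fun h => hν (by rw [h.1, h.2]; rfl)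
  obtain ⟨p, hp⟩ : ∃ p, p = x' - x := ⟨_, rfl⟩
  obtain ⟨q, hq⟩ : ∃ q, q = y - y' := ⟨_, rfl⟩
  obtain ⟨r, hr⟩ : ∃ r, r = x'' - x' := ⟨_, rfl⟩
  obtain ⟨s, hs⟩ : ∃ s, s = y' - y'' := ⟨_, rfl⟩
  have hp0 : 0 ≤ p := by linarith
  have hq0 : 0 ≤ q := by linarith
  have hr0 : 0 ≤ r := by linarith
  have hs0 : 0 ≤ s := by linarith
  have t1 : (-n1) * p ≤ (-n2) * q := by rw [hp, hq]; linarith
  have t2 : (-n2) * s ≤ (-n1) * r := by rw [hr, hs]; linarith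
  have e : (x' - x) * (y'' - y) - (y' - y) * (x'' - x) = q * r - p * s := by
    rw [hp, hq, hr, hs]; ring
  rw [e]
  have k : 0 ≤ q * r := mul_nonneg hq0 hr0
  rcases lt_or_eq_of_le h1 with g1 | g1
  · rcases lt_or_eq_of_le h2 with g2 | g2
    · have k4 : ((-n1) * p) * ((-n2) * s) ≤ ((-n2) * q) * ((-n1) * r) :=
        mul_le_mul t1 t2 (mul_nonneg (by linarith) hs0) (mul_nonneg (by linarith) hq0)
      have hm : 0 < n1 * n2 := mul_pos_of_neg_of_neg g1 g2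
      have : (n1 * n2) * (p * s) ≤ (n1 * n2) * (q * r) := by linarith
      linarith [le_of_mul_le_mul_left this hm]
    · rw [g2] at t1
      have : p = 0 := by
        by_contra h
        have : 0 < p := lt_of_le_of_ne hp0 (Ne.symm h)
        nlinarith [mul_pos (neg_pos.mpr g1) this]
      rw [this]; linarith
  · have g2 : n2 < 0 := lt_of_le_of_ne h2 fun h => hn ⟨g1, h⟩
    rw [g1] at t2
    have : s = 0 := by
      by_contra h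
      have : 0 < s := lt_of_le_of_ne hs0 (Ne.symm h)
      nlinarith [mul_pos (neg_pos.mpr g2) this]
    rw [this]; linarith

theorem cross_pos {a a' a'' ν : ℝ × ℝ} (hν : ν ≠ 0) (h1 : 0 ≤ ν.1) (h2 : 0 ≤ ν.2)
    (m1 : a.1 ≤ a'.1) (m2 : a'.2 ≤ a.2) (m3 : a'.1 ≤ a''.1) (m4 : a''.2 ≤ a'.2)
    (s1 : ν.1 * (a.1 - a'.1) + ν.2 * (a.2 - a'.2) ≤ 0)
    (s2 : ν.1 * (a''.1 - a'.1) + ν.2 * (a''.2 - a'.2) ≤ 0) :
    (a'.1 - a.1) * (a''.2 - a.2) - (a'.2 - a.2) * (a''.1 - a.1) ≤ 0 := by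
  obtain ⟨x, y⟩ := a
  obtain ⟨x', y'⟩ := a'
  obtain ⟨x'', y''⟩ := a''
  obtain ⟨n1, n2⟩ := ν
  simp only at *
  have hn : ¬ (n1 = 0 ∧ n2 = 0) := fun h => hν (by rw [h.1, h.2]; rfl)
  obtain ⟨p, hp⟩ : ∃ p, p = x' - x := ⟨_, rfl⟩
  obtain ⟨q, hq⟩ : ∃ q, q = y - y' := ⟨_, rfl⟩
  obtain ⟨r, hr⟩ : ∃ r, r = x'' - x' := ⟨_, rfl⟩
  obtain ⟨s, hs⟩ : ∃ s, s = y' - y'' := ⟨_, rfl⟩
  have hp0 : 0 ≤ p := by linarith
  have hq0 : 0 ≤ q := by linarith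
  have hr0 : 0 ≤ r := by linarith
  have hs0 : 0 ≤ s := by linarith
  have t1 : n2 * q ≤ n1 * p := by rw [hp, hq]; linarith
  have t2 : n1 * r ≤ n2 * s := by rw [hr, hs]; linarith
  have e : (x' - x) * (y'' - y) - (y' - y) * (x'' - x) = q * r - p * s := by
    rw [hp, hq, hr, hs]; ring
  rw [e]
  have k : 0 ≤ p * s := mul_nonneg hp0 hs0
  rcases lt_or_eq_of_le h1 with g1 | g1
  · rcases lt_or_eq_of_le h2 with g2 | g2
    · have k4 : (n2 * q) * (n1 * r) ≤ (n1 * p) * (n2 * s) :=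
        mul_le_mul t1 t2 (mul_nonneg h1 hr0) (mul_nonneg h1 hp0)
      have hm : 0 < n1 * n2 := mul_pos g1 g2
      have : (n1 * n2) * (q * r) ≤ (n1 * n2) * (p * s) := by linarith
      linarith [le_of_mul_le_mul_left this hm]
    · rw [← g2] at t2
      have : r = 0 := by
        by_contra h
        have : 0 < r := lt_of_le_of_ne hr0 (Ne.symm h)
        nlinarith [mul_pos g1 this]
      rw [this]; linarith
  · have g2 : 0 < n2 := lt_of_le_of_ne h2 fun h => hn ⟨g1.symm, h.symm⟩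
    rw [← g1] at t1
    have : q = 0 := by
      by_contra h
      have : 0 < q := lt_of_le_of_ne hq0 (Ne.symm h)
      nlinarith [mul_pos g2 this]
    rw [this]; linarith

end UDGConv
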