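import Pool.Agent.Lib.UDGConv.Defs

/-! The forbidden pattern: four acute angles (module of `UDGConv`; paper section 3). -/

namespace UDGConv

private lemma Pss_aux {e1 e2 g1 g2 f1 f2 v1 v2 w1 w2 : ℝ} (he1 : 0 ≤ e1) (he2 : e2 ≤ 0)
    (h1 : e1 ≤ f1) (h2 : f2 ≤ e2) (hg1 : 0 ≤ g1) (hg2 : g2 ≤ 0) (h3 : g1 ≤ f1) (h4 : f2 ≤ g2)
    (c2 : 0 ≤ e1 * f2 - e2 * f1) (c3 : g1 * f2 - g2 * f1 ≤ 0) (hv1 : 0 < v1) (hv2 : 0 < v2)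
    (hw1 : 0 < w1) (hw2 : 0 < w2) (d1 : 0 < e1 * v1 + e2 * v2) (d2 : g1 * w1 + g2 * w2 < 0) :
    0 < v1 * w2 - v2 * w1 := by
  have k1 : 0 < e1 := by
    rcases he1.lt_or_eq with h | h
    · exact h
    · exfalso
      rw [← h] at d1
      nlinarith
  have k2 : 0 < f1 := lt_of_lt_of_le k1 h1
  have k3 : g2 < 0 := by
    rcases hg2.lt_or_eq with h | h
    · exact h
    · exfalso
      rw [h] at d2
      nlinarith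
  have k4 : f2 < 0 := lt_of_le_of_lt h4 k3
  have m1 : 0 < e1 * v2 := mul_pos k1 hv2
  have m2 : 0 ≤ -e2 * v1 := mul_nonneg (neg_nonneg.2 he2) hv1.le
  have cev : 0 < e1 * v2 - e2 * v1 := by linarith
  have m3 : 0 < f1 * v2 := mul_pos k2 hv2
  have m4 : 0 < -f2 * v1 := mul_pos (neg_pos.2 k4) hv1
  have cfv : 0 < f1 * v2 - f2 * v1 := by linarith
  have m5 : 0 ≤ g1 * w2 := mul_nonneg hg1 hw2.le
  have m6 : 0 < -g2 * w1 := mul_pos (neg_pos.2 k3) hw1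
  have cgw : 0 < g1 * w2 - g2 * w1 := by linarith
  have m7 : 0 < f1 * w2 := mul_pos k2 hw2
  have m8 : 0 < -f2 * w1 := mul_pos (neg_pos.2 k4) hw1
  have cfw : 0 < f1 * w2 - f2 * w1 := by linarith
  have p1 : 0 < f1 * v1 + f2 * v2 := by
    have i1 : (e1 * v2 - e2 * v1) * (f1 * v1 + f2 * v2) =
        (f1 * v2 - f2 * v1) * (e1 * v1 + e2 * v2) + (e1 * f2 - e2 * f1) * (v1 ^ 2 + v2 ^ 2) := by
      ring
    have i2 : 0 < (f1 * v2 - f2 * v1) * (e1 * v1 + e2 * v2) := mul_pos cfv d1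
    have i3 : 0 ≤ (e1 * f2 - e2 * f1) * (v1 ^ 2 + v2 ^ 2) := mul_nonneg c2 (by positivity)
    have i4 : 0 < (e1 * v2 - e2 * v1) * (f1 * v1 + f2 * v2) := by linarith
    exact (pos_iff_pos_of_mul_pos i4).1 cev
  have p2 : 0 < -(f1 * w1 + f2 * w2) := by
    have i1 : (g1 * w2 - g2 * w1) * -(f1 * w1 + f2 * w2) =
        (f1 * w2 - f2 * w1) * -(g1 * w1 + g2 * w2) + -(g1 * f2 - g2 * f1) * (w1 ^ 2 + w2 ^ 2) := by
      ring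
    have i2 : 0 < (f1 * w2 - f2 * w1) * -(g1 * w1 + g2 * w2) := mul_pos cfw (neg_pos.2 d2)
    have i3 : 0 ≤ -(g1 * f2 - g2 * f1) * (w1 ^ 2 + w2 ^ 2) :=
      mul_nonneg (neg_nonneg.2 c3) (by positivity)
    have i4 : 0 < (g1 * w2 - g2 * w1) * -(f1 * w1 + f2 * w2) := by linarith
    exact (pos_iff_pos_of_mul_pos i4).1 cgw
  have q1 : (f1 ^ 2 + f2 ^ 2) * (v1 * w2 - v2 * w1) =
      (f1 * v1 + f2 * v2) * (f1 * w2 - f2 * w1) +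
        (f1 * v2 - f2 * v1) * -(f1 * w1 + f2 * w2) := by
    ring
  have q2 : 0 < (f1 ^ 2 + f2 ^ 2) * (v1 * w2 - v2 * w1) := by
    rw [q1]
    exact add_pos (mul_pos p1 cfw) (mul_pos cfv p2)
  have q3 : 0 < f1 ^ 2 + f2 ^ 2 := by positivity
  exact (pos_iff_pos_of_mul_pos q2).1 q3

/-- Put `e = A2 - A`, `e' = A' - A3`, `f = A' - A`, `v = B - A`, `v' = B' - A'`; `cr` = cross
product. `e, e', f` are in the closed fourth quadrant, `v, v'` in the open first quadrant.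
`sqd A2 B < sqd A B` gives `e·v > 0`, in particular `e.1 > 0`, so `f.1 > 0`, `cr e v > 0`,
`cr f v > 0`. `sqd A3 B' < sqd A' B'` gives `e'·v' < 0`, so `e'.2 < 0`, `f.2 < 0`, `cr e' v' > 0`,
`cr f v' > 0`. The identity `cr e v * (f·v) - cr f v * (e·v) = cr e f * |v|^2` and `cr e f ≥ 0` give
`f·v > 0`; the same identity for `e', v'` and `cr e' f ≤ 0` give `f·v' < 0`. Finally
`|f|^2 * cr v v' = (f·v) * cr f v' - cr f v * (f·v') > 0`. -/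
theorem half {A A2 A3 A' B B' : ℝ × ℝ}
    (a1 : A.1 ≤ A2.1) (a2 : A2.2 ≤ A.2) (a3 : A2.1 ≤ A'.1) (a4 : A'.2 ≤ A2.2)
    (a5 : A.1 ≤ A3.1) (a6 : A3.2 ≤ A.2) (a7 : A3.1 ≤ A'.1) (a8 : A'.2 ≤ A3.2)
    (c2 : 0 ≤ (A2.1 - A.1) * (A'.2 - A.2) - (A2.2 - A.2) * (A'.1 - A.1))
    (c3 : 0 ≤ (A3.1 - A.1) * (A'.2 - A.2) - (A3.2 - A.2) * (A'.1 - A.1))
    (f1 : A.1 < B.1) (f2 : A.2 < B.2) (f3 : A'.1 < B'.1) (f4 : A'.2 < B'.2)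
    (n1 : 1 < sqd A B) (n2 : 1 < sqd A' B') (d1 : sqd A2 B ≤ 1) (d2 : sqd A3 B' ≤ 1) :
    0 < (B.1 - A.1) * (B'.2 - A'.2) - (B.2 - A.2) * (B'.1 - A'.1) := by
  unfold sqd at n1 n2 d1 d2
  refine Pss_aux (e1 := A2.1 - A.1) (e2 := A2.2 - A.2) (g1 := A'.1 - A3.1) (g2 := A'.2 - A3.2)
    (f1 := A'.1 - A.1) (f2 := A'.2 - A.2) (by linarith) (by linarith) (by linarith) (by linarith)
    (by linarith) (by linarith) (by linarith) (by linarith) c2 ?_ (by linarith) (by linarith)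
    (by linarith) (by linarith) ?_ ?_
  · nlinarith
  · nlinarith [sq_nonneg (A2.1 - A.1), sq_nonneg (A2.2 - A.2)]
  · nlinarith [sq_nonneg (A'.1 - A3.1), sq_nonneg (A'.2 - A3.2)]

/-- Apply `half` to `A, A2, A3, A', B, B'` and to `-B', -B3, -B2, -B, -A', -A`: the two results
contradict each other. -/
theorem pss {A A2 A3 A' B B2 B3 B' : ℝ × ℝ}
    (a1 : A.1 ≤ A2.1) (a2 : A2.2 ≤ A.2) (a3 : A2.1 ≤ A'.1) (a4 : A'.2 ≤ A2.2)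
    (a5 : A.1 ≤ A3.1) (a6 : A3.2 ≤ A.2) (a7 : A3.1 ≤ A'.1) (a8 : A'.2 ≤ A3.2)
    (c2 : 0 ≤ (A2.1 - A.1) * (A'.2 - A.2) - (A2.2 - A.2) * (A'.1 - A.1))
    (c3 : 0 ≤ (A3.1 - A.1) * (A'.2 - A.2) - (A3.2 - A.2) * (A'.1 - A.1))
    (b1 : B.1 ≤ B2.1) (b2 : B2.2 ≤ B.2) (b3 : B2.1 ≤ B'.1) (b4 : B'.2 ≤ B2.2)
    (b5 : B.1 ≤ B3.1) (b6 : B3.2 ≤ B.2) (b7 : B3.1 ≤ B'.1) (b8 : B'.2 ≤ B3.2)
    (e2 : (B2.1 - B.1) * (B'.2 - B.2) - (B2.2 - B.2) * (B'.1 - B.1) ≤ 0)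
    (e3 : (B3.1 - B.1) * (B'.2 - B.2) - (B3.2 - B.2) * (B'.1 - B.1) ≤ 0)
    (f1 : A.1 < B.1) (f2 : A.2 < B.2) (f3 : A'.1 < B'.1) (f4 : A'.2 < B'.2)
    (n1 : 1 < sqd A B) (n2 : 1 < sqd A' B') (d1 : sqd A B2 ≤ 1) (d2 : sqd A2 B ≤ 1)
    (d3 : sqd A3 B' ≤ 1) (d4 : sqd A' B3 ≤ 1) : False := by
  have h1 := half a1 a2 a3 a4 a5 a6 a7 a8 c2 c3 f1 f2 f3 f4 n1 n2 d2 d3
  have h2 := half (A := (-B'.1, -B'.2)) (A2 := (-B3.1, -B3.2)) (A3 := (-B2.1, -B2.2))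
    (A' := (-B.1, -B.2)) (B := (-A'.1, -A'.2)) (B' := (-A.1, -A.2))
    (neg_le_neg b7) (neg_le_neg b8) (neg_le_neg b5) (neg_le_neg b6)
    (neg_le_neg b3) (neg_le_neg b4) (neg_le_neg b1) (neg_le_neg b2)
    (by
      show 0 ≤ (-B3.1 - -B'.1) * (-B.2 - -B'.2) - (-B3.2 - -B'.2) * (-B.1 - -B'.1)
      linarith)
    (by
      show 0 ≤ (-B2.1 - -B'.1) * (-B.2 - -B'.2) - (-B2.2 - -B'.2) * (-B.1 - -B'.1)
      linarith)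
    (neg_lt_neg f3) (neg_lt_neg f4) (neg_lt_neg f1) (neg_lt_neg f2)
    (by
      unfold sqd at n2 ⊢
      show 1 < (-B'.1 - -A'.1) ^ 2 + (-B'.2 - -A'.2) ^ 2
      linarith)
    (by
      unfold sqd at n1 ⊢
      show 1 < (-B.1 - -A.1) ^ 2 + (-B.2 - -A.2) ^ 2
      linarith)
    (by
      unfold sqd at d4 ⊢
      show (-B3.1 - -A'.1) ^ 2 + (-B3.2 - -A'.2) ^ 2 ≤ 1
      linarith)
    (by
      unfold sqd at d1 ⊢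
      show (-B2.1 - -A.1) ^ 2 + (-B2.2 - -A.2) ^ 2 ≤ 1
      linarith)
  have h3 : 0 < (-A'.1 - -B'.1) * (-A.2 - -B.2) - (-A'.2 - -B'.2) * (-A.1 - -B.1) := h2
  linarith

end UDGConv
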