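import Pool.Agent.Lib.UDGConv.Stair
import Pool.Agent.Lib.UDGConv.Near
import Pool.Agent.Lib.UDGConv.Pss
import Pool.Agent.Lib.UDGConv.Chain

/-! The staircase labels for two opposite classes (module of `UDGConv`; paper sections 3, 4). -/

namespace UDGConv

private lemma SL_fl {s t : ℕ} (h : s < 2 ↔ t < 2) : fl s = fl t := by
  funext a
  unfold fl
  by_cases h1 : s < 2
  · rw [if_pos h1, if_pos (h.1 h1)]
  · rw [if_neg h1, if_neg (fun h2 => h1 (h.2 h2))]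

private lemma SL_chain {n : ℕ} {p ν : Fin n → ℝ × ℝ} {cls : Fin n → ℕ}
    (h : Fam n p ν cls) {t0 c : ℕ} (hfl : fl (c % 4) = fl t0) {r : Fin n → ℕ}
    (hr : Rk n (fun v => key t0 (p v)) r) {u v : Fin n} (hu : cls u = c) (hv : cls v = c)
    (huv : r u < r v) :
    (fl t0 (p u)).1 ≤ (fl t0 (p v)).1 ∧ (fl t0 (p v)).2 ≤ (fl t0 (p u)).2 := by
  have hk : key (c % 4) = key t0 := by
    funext a
    unfold key
    rw [hfl]
  have h1 := hr.mono u v huv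
  have h2 := h.chain (u := u) (v := v) (hu.trans hv.symm) (by rw [hv, hk]; exact h1)
  rw [hv, hfl] at h2
  exact h2

private lemma SL_sup {n : ℕ} {p ν : Fin n → ℝ × ℝ} {cls : Fin n → ℕ}
    (h : Fam n p ν cls) (t0 : ℕ) {c : ℕ} {u v : Fin n} (hu : cls u = c) (hv : cls v = c) :
    (fl t0 (ν v)).1 * ((fl t0 (p u)).1 - (fl t0 (p v)).1) +
      (fl t0 (ν v)).2 * ((fl t0 (p u)).2 - (fl t0 (p v)).2) ≤ 0 :=
  h.sup_fl t0 (hu.trans hv.symm)

/-- `stair` with `N = n`, `M x y` = there are `a` in class `cA`, `b` in class `cB` with `r a = x`,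
`r b = y`, `sqd (p a) (p b) ≤ 1`; `E x y` = there are such `a`, `b` with `Far (cA % 4) (p a) (p b)`.
The pattern is excluded by `pss` for the points `fl (cA % 4) _`; its hypotheses come from
`Fam.chain`, `cross_neg` (class `cA`, even type: normals `≤ 0`) and `cross_pos` (class `cB`). Note
`key (cB % 4) = key (cA % 4)` and `fl (cB % 4) = fl (cA % 4)` since `cA % 4 = 0` or `2`. -/
theorem stairLab {n L : ℕ} (hL : n < 2 ^ L) {p ν : Fin n → ℝ × ℝ} {cls : Fin n → ℕ}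
    (h : Fam n p ν cls) (cA cB : ℕ) (hA : cA % 2 = 0) (hB : cB % 4 = cA % 4 + 1)
    {r : Fin n → ℕ} (hr : Rk n (fun v => key (cA % 4) (p v)) r) :
    ∃ (V : ℕ → ℕ) (z z2 t t2 : ℕ → ℕ → ℕ), (∀ y, V y ≤ n + 1) ∧
      (∀ x l, z x l ≤ n + 1) ∧ (∀ x l, z2 x l ≤ n + 1) ∧
      (∀ y l, t y l ≤ n + 1) ∧ (∀ y l, t2 y l ≤ n + 1) ∧
      ∀ a b, cls a = cA → cls b = cB → Far (cA % 4) (p a) (p b) →
        (stairDec L (r a) (r b) (V (r b)) (z (r a)) (z2 (r a)) (t (r b)) (t2 (r b)) = true ↔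
          sqd (p a) (p b) ≤ 1) := by
  set t0 := cA % 4 with ht0
  have ht : t0 % 2 = 0 := by omega
  have hfA : fl (cA % 4) = fl t0 := rfl
  have hfB : fl (cB % 4) = fl t0 := SL_fl (by omega)
  obtain ⟨V, z, z2, t, t2, h1, h2, h3, h4, h5, h6⟩ := stair n L hL
    (fun x y => ∃ a b, cls a = cA ∧ cls b = cB ∧ r a = x ∧ r b = y ∧ sqd (p a) (p b) ≤ 1)
    (fun x y => ∃ a b, cls a = cA ∧ cls b = cB ∧ r a = x ∧ r b = y ∧ Far t0 (p a) (p b))
    (by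
      rintro x y ⟨a, b, -, -, rfl, rfl, -⟩
      exact ⟨hr.le a, hr.le b⟩)
    (by
      rintro x x2 x3 x' y y2 y3 y' hx1 hx2 hx3 hy1 hy2 hy3 ⟨A, B, hA1, hB1, rA, rB, hF⟩ hM1
        ⟨A_, B2, hA_, hB2, rA_, rB2, d1⟩ ⟨A2, B_, hA2, hB_, rA2, rB_, d2⟩
        ⟨A3, B', hA3, hB', rA3, rB', d3⟩ ⟨A', B3, hA', hB3, rA', rB3, d4⟩
        ⟨A'_, B'_, hA'_, hB'_, rA'_, rB'_, hF'⟩ hM2
      have e1 : A_ = A := hr.inj (by rw [rA_, rA])
      have e2 : B_ = B := hr.inj (by rw [rB_, rB])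
      have e3 : A'_ = A' := hr.inj (by rw [rA'_, rA'])
      have e4 : B'_ = B' := hr.inj (by rw [rB'_, rB'])
      subst e1 e2 e3 e4
      have n1 : 1 < sqd (p A_) (p B_) := by
        by_contra hc
        exact hM1 ⟨A_, B_, hA1, hB1, rA, rB, not_lt.1 hc⟩
      have n2 : 1 < sqd (p A'_) (p B'_) := by
        by_contra hc
        exact hM2 ⟨A'_, B'_, hA'_, hB'_, rA'_, rB'_, not_lt.1 hc⟩
      unfold Far at hF hF'
      rw [if_pos ht] at hF hF'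
      obtain ⟨a1, a2⟩ := SL_chain h hfA hr hA1 hA2 (by omega : r A_ < r A2)
      obtain ⟨a3, a4⟩ := SL_chain h hfA hr hA2 hA'_ (by omega : r A2 < r A'_)
      obtain ⟨a5, a6⟩ := SL_chain h hfA hr hA1 hA3 (by omega : r A_ < r A3)
      obtain ⟨a7, a8⟩ := SL_chain h hfA hr hA3 hA'_ (by omega : r A3 < r A'_)
      obtain ⟨b1, b2⟩ := SL_chain h hfB hr hB1 hB2 (by omega : r B_ < r B2)
      obtain ⟨b3, b4⟩ := SL_chain h hfB hr hB2 hB'_ (by omega : r B2 < r B'_)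
      obtain ⟨b5, b6⟩ := SL_chain h hfB hr hB1 hB3 (by omega : r B_ < r B3)
      obtain ⟨b7, b8⟩ := SL_chain h hfB hr hB3 hB'_ (by omega : r B3 < r B'_)
      have tyA : ∀ v, cls v = cA → (fl t0 (ν v)).1 ≤ 0 ∧ (fl t0 (ν v)).2 ≤ 0 := by
        intro v hv
        have := h.ty v
        unfold TypeOK at this
        rw [hv, if_pos (by omega)] at this
        exact this
      have tyB : ∀ v, cls v = cB → 0 ≤ (fl t0 (ν v)).1 ∧ 0 ≤ (fl t0 (ν v)).2 := by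
        intro v hv
        have := h.ty v
        unfold TypeOK at this
        rw [hv, if_neg (by omega), hfB] at this
        exact this
      have c2 := cross_neg (fl_ne t0 (h.ne A2)) (tyA A2 hA2).1 (tyA A2 hA2).2 a1 a2 a3 a4
        (SL_sup h t0 hA1 hA2) (SL_sup h t0 hA'_ hA2)
      have c3 := cross_neg (fl_ne t0 (h.ne A3)) (tyA A3 hA3).1 (tyA A3 hA3).2 a5 a6 a7 a8
        (SL_sup h t0 hA1 hA3) (SL_sup h t0 hA'_ hA3)
      have e2 := cross_pos (fl_ne t0 (h.ne B2)) (tyB B2 hB2).1 (tyB B2 hB2).2 b1 b2 b3 b4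
        (SL_sup h t0 hB1 hB2) (SL_sup h t0 hB'_ hB2)
      have e3 := cross_pos (fl_ne t0 (h.ne B3)) (tyB B3 hB3).1 (tyB B3 hB3).2 b5 b6 b7 b8
        (SL_sup h t0 hB1 hB3) (SL_sup h t0 hB'_ hB3)
      rw [← sqd_fl t0] at n1 n2 d1 d2 d3 d4
      exact pss a1 a2 a3 a4 a5 a6 a7 a8 c2 c3 b1 b2 b3 b4 b5 b6 b7 b8 e2 e3 hF.1 hF.2 hF'.1 hF'.2
        n1 n2 d1 d2 d3 d4)
  refine ⟨V, z, z2, t, t2, h1, h2, h3, h4, h5, ?_⟩
  intro a b ha hb hF
  rw [h6 (r a) (r b) (hr.pos a) (hr.le a) (hr.pos b) (hr.le b) ⟨a, b, ha, hb, rfl, rfl, hF⟩]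
  constructor
  · rintro ⟨a', b', -, -, ra, rb, hd⟩
    rw [hr.inj ra, hr.inj rb] at hd
    exact hd
  · intro hd
    exact ⟨a, b, ha, hb, rfl, rfl, hd⟩

end UDGConv
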