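import Pool.Agent.Lib.UDGConv.Defs

/-! Types (module of `UDGConv`). -/

namespace UDGConv

/-- Choose the type by the signs of the two coordinates:
`0`: `(≤, ≤)`, `1`: `(≥, ≥)`, `2`: `(≤, ≥)`, `3`: `(≥, ≤)`. -/
theorem exists_type (ν : ℝ × ℝ) : ∃ t < 4, TypeOK t ν := by
  rcases le_total ν.1 0 with h1 | h1 <;> rcases le_total ν.2 0 with h2 | h2
  · exact ⟨0, by norm_num, by simp [TypeOK, fl, h1, h2]⟩
  · exact ⟨2, by norm_num, by simp [TypeOK, fl, h1, h2]⟩
  · exact ⟨3, by norm_num, by simp [TypeOK, fl, h1, h2]⟩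
  · exact ⟨1, by norm_num, by simp [TypeOK, fl, h1, h2]⟩

/-- The structured labels decide `Far`. -/
theorem lab_far_iff {n : ℕ} {p : Fin n → ℝ × ℝ} {cls rx ry : Fin n → ℕ}
    (hx : ∀ u v, (rx u < rx v ↔ (p u).1 < (p v).1)) (hy : ∀ u v, (ry u < ry v ↔ (p u).2 < (p v).2))
    {a b : Lab} {u v : Fin n} (ha : a.cls = cls u) (ha1 : a.rx = rx u) (ha2 : a.ry = ry u)
    (hb1 : b.rx = rx v) (hb2 : b.ry = ry v) :
    Lab.far a b = true ↔ Far (cls u % 4) (p u) (p v) := by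
  have h4 : cls u % 4 < 4 := Nat.mod_lt _ (by norm_num)
  unfold Lab.far
  rw [ha, ha1, ha2, hb1, hb2]
  generalize cls u % 4 = t at h4 ⊢
  interval_cases t
  · simp [Far, fl, hx, hy]
  · simp [Far, fl, hx, hy]
  · simp [Far, fl, hx, hy]
  · simp [Far, fl, hx, hy]

/-- If `b` is far from `a` (type `t`) and `a` is far from `b` (type `s`) then the types are opposite. -/
theorem far_far {t s : ℕ} (ht : t < 4) (hs : s < 4) {a b : ℝ × ℝ} (h1 : Far t a b)
    (h2 : Far s b a) : (t % 2 = 0 ∧ s = t + 1) ∨ (s % 2 = 0 ∧ t = s + 1) := by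
  interval_cases t <;> interval_cases s <;> simp [Far, fl] at h1 h2 ⊢ <;>
    exact absurd h1.1 (by linarith [h1.1, h1.2, h2.1, h2.2])

end UDGConv
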