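import Pool.Agent.Lib.UDGConv.IntLab
import Pool.Agent.Lib.UDGConv.StairLab
import Pool.Agent.Lib.UDGConv.Rank
import Pool.Agent.Lib.UDGConv.Ty

/-! All labels together (module of `UDGConv`; paper section 5). -/

namespace UDGConv

private theorem Main_key_lt {t : ℕ} (ht : t < 2) (a : ℝ × ℝ) : key t a = key 0 a := by
  simp [key, fl, ht]

private theorem Main_key_ge {t : ℕ} (ht : ¬ t < 2) (a : ℝ × ℝ) : key t a = key 2 a := by
  simp [key, fl, ht]

private theorem Main_sqd_comm (a b : ℝ × ℝ) : sqd a b = sqd b a := by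
  unfold sqd
  ring

/-- Choose `rx`, `ry` by `exists_srank`, `r0` (key `x - y`) and `r1` (key `x + y`) by `exists_rk`, for
every point and class the interval by `intLab`, for every pair of opposite classes `(cA, cB)` the
numbers of `stairLab`. The label of `v` (class `c`): `lo c'`, `hi c'` = interval of `v` for the class
`c'`. If `c` is even: `s1 c' l = z (r v) l`, `s2 c' l = z2 (r v) l` for the pair `(c, c')` (and
`vv c' = 0`); if `c` is odd: `vv c' = V (r v)`, `s1 c' l = t (r v) l`, `s2 c' l = t2 (r v) l` for the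
pair `(c', c)`. Then follow the three cases of `Lab.dec` with `lab_far_iff` and `far_far`. -/
theorem main_lab {n L : ℕ} (hL : n < 2 ^ L) {p ν : Fin n → ℝ × ℝ} {cls : Fin n → ℕ}
    (h : Fam n p ν cls) :
    ∃ lab : Fin n → Lab, (∀ v, (lab v).cls = cls v) ∧ (∀ v, (lab v).Bd (n + 2)) ∧
      ∀ u v, (Lab.dec L (lab u) (lab v) = true ↔ sqd (p u) (p v) ≤ 1) := by
  classical
  obtain ⟨rx, hrx, hx⟩ := exists_srank n (fun v => (p v).1)
  obtain ⟨ry, hry, hy⟩ := exists_srank n (fun v => (p v).2)
  obtain ⟨r0, hr0⟩ := exists_rk n (fun v => key 0 (p v))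
  obtain ⟨r1, hr1⟩ := exists_rk n (fun v => key 2 (p v))
  obtain ⟨rr, hrr⟩ : ∃ rr : ℕ → Fin n → ℕ, rr = fun c v => if c % 4 < 2 then r0 v else r1 v :=
    ⟨_, rfl⟩
  have hrk : ∀ c, Rk n (fun v => key (c % 4) (p v)) (rr c) := by
    intro c
    by_cases hc : c % 4 < 2
    · have e1 : rr c = r0 := by
        rw [hrr]
        funext v
        exact if_pos hc
      have e2 : (fun v => key (c % 4) (p v)) = fun v => key 0 (p v) :=
        funext fun v => Main_key_lt hc (p v)
      rw [e1, e2]
      exact hr0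
    · have e1 : rr c = r1 := by
        rw [hrr]
        funext v
        exact if_neg hc
      have e2 : (fun v => key (c % 4) (p v)) = fun v => key 2 (p v) :=
        funext fun v => Main_key_ge hc (p v)
      rw [e1, e2]
      exact hr1
  have hI : ∀ (c : ℕ) (v : Fin n), ∃ lo hi : ℕ, lo ≤ n + 1 ∧ hi ≤ n + 1 ∧ ∀ a, cls a = c →
      ¬ Far (c % 4) (p a) (p v) → (sqd (p a) (p v) ≤ 1 ↔ lo ≤ rr c a ∧ rr c a ≤ hi) :=
    fun c v => intLab h c (hrk c) (p v)
  choose lo hi hlo hhi hI using hI
  have hS : ∀ cA cB : ℕ, ∃ (V : ℕ → ℕ) (z z2 t t2 : ℕ → ℕ → ℕ), (∀ y, V y ≤ n + 1) ∧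
      (∀ x l, z x l ≤ n + 1) ∧ (∀ x l, z2 x l ≤ n + 1) ∧
      (∀ y l, t y l ≤ n + 1) ∧ (∀ y l, t2 y l ≤ n + 1) ∧
      (cA % 2 = 0 → cB % 4 = cA % 4 + 1 →
      ∀ a b, cls a = cA → cls b = cB → Far (cA % 4) (p a) (p b) →
        (stairDec L (rr cA a) (rr cA b) (V (rr cA b)) (z (rr cA a)) (z2 (rr cA a))
          (t (rr cA b)) (t2 (rr cA b)) = true ↔ sqd (p a) (p b) ≤ 1)) := by
    intro cA cB
    by_cases hc : cA % 2 = 0 ∧ cB % 4 = cA % 4 + 1
    · obtain ⟨V, z, z2, t, t2, h1, h2, h3, h4, h5, h6⟩ :=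
        stairLab hL h cA cB hc.1 hc.2 (hrk cA)
      exact ⟨V, z, z2, t, t2, h1, h2, h3, h4, h5, fun _ _ => h6⟩
    · refine ⟨fun _ => 0, fun _ _ => 0, fun _ _ => 0, fun _ _ => 0, fun _ _ => 0,
        fun _ => Nat.zero_le _, fun _ _ => Nat.zero_le _, fun _ _ => Nat.zero_le _,
        fun _ _ => Nat.zero_le _, fun _ _ => Nat.zero_le _, fun h1 h2 => absurd ⟨h1, h2⟩ hc⟩
  choose V z z2 t t2 hV hz hz2 ht ht2 hS using hS
  obtain ⟨lab, hlab⟩ : ∃ lab : Fin n → Lab, lab = fun v =>
      { cls := cls v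
        rx := rx v
        ry := ry v
        r0 := r0 v
        r1 := r1 v
        lo := fun c => lo c v
        hi := fun c => hi c v
        vv := fun c => V c (cls v) (rr c v)
        s1 := fun c l => if cls v % 2 = 0 then z (cls v) c (rr (cls v) v) l
          else t c (cls v) (rr c v) l
        s2 := fun c l => if cls v % 2 = 0 then z2 (cls v) c (rr (cls v) v) l
          else t2 c (cls v) (rr c v) l } := ⟨_, rfl⟩
  have lcls : ∀ v, (lab v).cls = cls v := fun v => by rw [hlab]
  have lrx : ∀ v, (lab v).rx = rx v := fun v => by rw [hlab]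
  have lry : ∀ v, (lab v).ry = ry v := fun v => by rw [hlab]
  have llo : ∀ v c, (lab v).lo c = lo c v := fun v c => by rw [hlab]
  have lhi : ∀ v c, (lab v).hi c = hi c v := fun v c => by rw [hlab]
  have lvv : ∀ v c, (lab v).vv c = V c (cls v) (rr c v) := fun v c => by rw [hlab]
  have ls1e : ∀ v c, cls v % 2 = 0 → (lab v).s1 c = z (cls v) c (rr (cls v) v) := by
    intro v c hv
    rw [hlab]
    funext l
    exact if_pos hv
  have ls2e : ∀ v c, cls v % 2 = 0 → (lab v).s2 c = z2 (cls v) c (rr (cls v) v) := by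
    intro v c hv
    rw [hlab]
    funext l
    exact if_pos hv
  have ls1o : ∀ v c, ¬ cls v % 2 = 0 → (lab v).s1 c = t c (cls v) (rr c v) := by
    intro v c hv
    rw [hlab]
    funext l
    exact if_neg hv
  have ls2o : ∀ v c, ¬ cls v % 2 = 0 → (lab v).s2 c = t2 c (cls v) (rr c v) := by
    intro v c hv
    rw [hlab]
    funext l
    exact if_neg hv
  have lrk : ∀ v, (lab v).rk = rr (cls v) v := by
    intro v
    rw [hlab, hrr]
    rfl
  have lfar : ∀ u v, (Lab.far (lab u) (lab v) = true ↔ Far (cls u % 4) (p u) (p v)) :=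
    fun u v => lab_far_iff hx hy (lcls u) (lrx u) (lry u) (lrx v) (lry v)
  have hrrA : ∀ cA cB v, cA % 4 % 2 = 0 → cB % 4 = cA % 4 + 1 → rr cB v = rr cA v := by
    intro cA cB v h1 h2
    rw [hrr]
    by_cases hc : cA % 4 < 2
    · have hc' : cB % 4 < 2 := by omega
      show (if cB % 4 < 2 then r0 v else r1 v) = if cA % 4 < 2 then r0 v else r1 v
      rw [if_pos hc, if_pos hc']
    · have hc' : ¬ cB % 4 < 2 := by omega
      show (if cB % 4 < 2 then r0 v else r1 v) = if cA % 4 < 2 then r0 v else r1 v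
      rw [if_neg hc, if_neg hc']
  refine ⟨lab, lcls, ?_, ?_⟩
  · intro v
    refine ⟨?_, ?_, ?_, ?_, ?_⟩
    · rw [lrx]
      have := hrx v
      omega
    · rw [lry]
      have := hry v
      omega
    · have := hr0.le v
      have e : (lab v).r0 = r0 v := by rw [hlab]
      rw [e]
      omega
    · have := hr1.le v
      have e : (lab v).r1 = r1 v := by rw [hlab]
      rw [e]
      omega
    · intro c
      refine ⟨?_, ?_, ?_, ?_⟩
      · rw [llo]
        have := hlo c v
        omega
      · rw [lhi]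
        have := hhi c v
        omega
      · rw [lvv]
        have := hV c (cls v) (rr c v)
        omega
      · intro l
        by_cases hv : cls v % 2 = 0
        · rw [ls1e v c hv, ls2e v c hv]
          have := hz (cls v) c (rr (cls v) v) l
          have := hz2 (cls v) c (rr (cls v) v) l
          constructor <;> omega
        · rw [ls1o v c hv, ls2o v c hv]
          have := ht c (cls v) (rr c v) l
          have := ht2 c (cls v) (rr c v) l
          constructor <;> omega
  · intro u v
    unfold Lab.dec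
    by_cases h1 : Lab.far (lab u) (lab v) = false
    · rw [if_pos h1, decide_eq_true_iff, lcls, lrk, llo, lhi]
      have hf : ¬ Far (cls u % 4) (p u) (p v) := by
        rw [← lfar u v, h1]
        exact Bool.false_ne_true
      exact (hI (cls u) v u rfl hf).symm
    · rw [if_neg h1]
      by_cases h2 : Lab.far (lab v) (lab u) = false
      · rw [if_pos h2, decide_eq_true_iff, lcls, lrk, llo, lhi]
        have hf : ¬ Far (cls v % 4) (p v) (p u) := by
          rw [← lfar v u, h2]
          exact Bool.false_ne_true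
        rw [Main_sqd_comm (p u) (p v)]
        exact (hI (cls v) u v rfl hf).symm
      · rw [if_neg h2]
        have hf1 : Far (cls u % 4) (p u) (p v) := (lfar u v).1 (Bool.eq_true_of_not_eq_false h1)
        have hf2 : Far (cls v % 4) (p v) (p u) := (lfar v u).1 (Bool.eq_true_of_not_eq_false h2)
        rcases far_far (Nat.mod_lt _ (by norm_num)) (Nat.mod_lt _ (by norm_num)) hf1 hf2 with
          ⟨h3, h4⟩ | ⟨h3, h4⟩
        · have hu : cls u % 2 = 0 := by omega
          have hv : ¬ cls v % 2 = 0 := by omega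
          rw [if_pos (by rw [lcls]; exact hu), lcls, lcls, lrk, lrk, lvv, ls1e u _ hu,
            ls2e u _ hu, ls1o v _ hv, ls2o v _ hv, hrrA (cls u) (cls v) v h3 h4]
          exact hS (cls u) (cls v) hu h4 u v rfl rfl hf1
        · have hv : cls v % 2 = 0 := by omega
          have hu : ¬ cls u % 2 = 0 := by omega
          rw [if_neg (by rw [lcls]; exact hu), lcls, lcls, lrk, lrk, lvv, ls1o u _ hu,
            ls2o u _ hu, ls1e v _ hv, ls2e v _ hv, hrrA (cls v) (cls u) u h3 h4,
            Main_sqd_comm (p u) (p v)]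
          exact hS (cls v) (cls u) hv h4 v u rfl rfl hf2

end UDGConv
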