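import Pool.Agent.Lib.UDGConv.UpDn

/-! The abstract staircase labels (module of `UDGConv`; paper section 4). -/

namespace UDGConv

private def stG (M E : ℕ → ℕ → Prop) (x y : ℕ) : Prop :=
  ∃ x0 y0, x0 < x ∧ y0 < y ∧ E x0 y0 ∧ ¬ M x0 y0 ∧ M x0 y ∧ M x y0

private def stU (M E : ℕ → ℕ → Prop) (x y : ℕ) : Prop :=
  ∃ g1 g2, g1 ≤ x ∧ g2 ≤ y ∧ stG M E g1 g2

private theorem stU_mono {M E : ℕ → ℕ → Prop} {x y x' y' : ℕ} (h : stU M E x y) (hx : x ≤ x')
    (hy : y ≤ y') : stU M E x' y' := by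
  obtain ⟨g1, g2, h1, h2, h3⟩ := h
  exact ⟨g1, g2, h1.trans hx, h2.trans hy, h3⟩

/-- Staircase labels from the forbidden pattern. `U x y` says that some `g1 ≤ x`, `g2 ≤ y` have `G g1 g2`;
`V y` is the last row not in `U`. -/
theorem stair (N L : ℕ) (hL : N < 2 ^ L) (M E : ℕ → ℕ → Prop)
    (hM : ∀ x y, M x y → x ≤ N ∧ y ≤ N)
    (hP : ∀ x x2 x3 x' y y2 y3 y' : ℕ, x < x2 → x2 ≤ x3 → x3 < x' → y < y2 → y2 ≤ y3 → y3 < y' →
      E x y → ¬ M x y → M x y2 → M x2 y → M x3 y' → M x' y3 → E x' y' → ¬ M x' y' → False) :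
    ∃ (V : ℕ → ℕ) (z z2 t t2 : ℕ → ℕ → ℕ), (∀ y, V y ≤ N + 1) ∧
      (∀ x l, z x l ≤ N + 1) ∧ (∀ x l, z2 x l ≤ N + 1) ∧
      (∀ y l, t y l ≤ N + 1) ∧ (∀ y l, t2 y l ≤ N + 1) ∧
      ∀ x y, 1 ≤ x → x ≤ N → 1 ≤ y → y ≤ N → E x y →
        (stairDec L x y (V y) (z x) (z2 x) (t y) (t2 y) = true ↔ M x y) := by
  classical
  let V : ℕ → ℕ := fun y => Nat.findGreatest (fun x => ¬ stU M E x y) N
  let z : ℕ → ℕ → ℕ := fun x l =>
    Nat.findGreatest (fun y => ¬ stU M E (2 ^ l * up l x) y ∧ M x y) N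
  let t : ℕ → ℕ → ℕ := fun y l =>
    Nat.findGreatest (fun x => M x y) (min N (2 ^ l * dn l (V y)))
  let z2 : ℕ → ℕ → ℕ := fun x l =>
    if h : ∃ y, stU M E (2 ^ l * dn l x) y ∧ M x y then Nat.find h else N + 1
  let t2 : ℕ → ℕ → ℕ := fun y l =>
    if h : ∃ x, 2 ^ l * up l (V y + 1) ≤ x ∧ M x y then Nat.find h else N + 1
  have hVle : ∀ y, V y ≤ N := fun y => Nat.findGreatest_le N
  refine ⟨V, z, z2, t, t2, fun y => (hVle y).trans (Nat.le_succ N),
    fun x l => (Nat.findGreatest_le N).trans (Nat.le_succ N), ?_,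
    fun y l => ((Nat.findGreatest_le _).trans (min_le_left _ _)).trans (Nat.le_succ N), ?_, ?_⟩
  · intro x l
    simp only [z2]
    split
    · next h => exact ((hM _ _ (Nat.find_spec h).2).2).trans (Nat.le_succ N)
    · exact le_rfl
  · intro y l
    simp only [t2]
    split
    · next h => exact ((hM _ _ (Nat.find_spec h).2).1).trans (Nat.le_succ N)
    · exact le_rfl
  intro x y hx1 hxN hy1 hyN hE
  -- x ≤ V y iff not U
  have hU0 : ¬ stU M E 0 y := by
    rintro ⟨g1, g2, h1, h2, x0, y0, h3, _⟩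
    omega
  have hVspec : ¬ stU M E (V y) y := by
    by_cases h0 : V y = 0
    · rw [h0]; exact hU0
    · exact Nat.findGreatest_of_ne_zero (P := fun x => ¬ stU M E x y) rfl h0
  have hVge : ∀ x, x ≤ N → ¬ stU M E x y → x ≤ V y := fun x hx h =>
    Nat.le_findGreatest (P := fun x => ¬ stU M E x y) hx h
  unfold stairDec
  by_cases hxV : x ≤ V y
  · rw [if_pos hxV, decide_eq_true_iff]
    have hX : ∀ l, up l x = dn l (V y) → x ≤ 2 ^ l * up l x ∧ 2 ^ l * up l x ≤ V y := by
      intro l hl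
      refine ⟨le_up l x, ?_⟩
      rw [hl]; exact dn_le l (V y)
    constructor
    · rintro ⟨l, hl, e, hyz, hxt⟩
      obtain ⟨X1, X2⟩ := hX l e
      by_contra hMn
      have hz : ¬ stU M E (2 ^ l * up l x) (z x l) ∧ M x (z x l) :=
        Nat.findGreatest_of_ne_zero (P := fun y => ¬ stU M E (2 ^ l * up l x) y ∧ M x y)
          (m := z x l) rfl (by omega)
      have ht : M (t y l) y :=
        Nat.findGreatest_of_ne_zero (P := fun x => M x y) (m := t y l) rfl (by omega)
      have htX : t y l ≤ 2 ^ l * up l x := by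
        rw [e]; exact (Nat.findGreatest_le _).trans (min_le_right _ _)
      have hyz' : y < z x l := by
        rcases Nat.lt_or_ge y (z x l) with h | h
        · exact h
        · exact absurd (by have : z x l = y := le_antisymm h hyz; rw [← this]; exact hz.2) hMn
      have hxt' : x < t y l := by
        rcases Nat.lt_or_ge x (t y l) with h | h
        · exact h
        · exact absurd (by have : t y l = x := le_antisymm h hxt; rw [← this]; exact ht) hMn
      apply hz.1
      exact ⟨t y l, z x l, htX, le_rfl, x, y, hxt', hyz', hE, hMn, hz.2, ht⟩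
    · intro hMxy
      obtain ⟨l, hl, e⟩ := exists_level hx1 hxV (lt_of_le_of_lt (hVle y) hL)
      obtain ⟨X1, X2⟩ := hX l e
      refine ⟨l, hl, e, ?_, ?_⟩
      · apply Nat.le_findGreatest hyN
        exact ⟨fun h => hVspec (stU_mono h X2 le_rfl), hMxy⟩
      · apply Nat.le_findGreatest (P := fun x => M x y) _ hMxy
        rw [← e]; exact le_min hxN X1
  · rw [if_neg hxV, decide_eq_true_iff]
    have hXU : ∀ l, up l (V y + 1) = dn l x → V y + 1 ≤ 2 ^ l * dn l x ∧ 2 ^ l * dn l x ≤ x := by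
      intro l hl
      refine ⟨?_, dn_le l x⟩
      rw [← hl]; exact le_up l (V y + 1)
    constructor
    · rintro ⟨l, hl, e, hzy, htx⟩
      obtain ⟨X1, X2⟩ := hXU l e
      by_contra hMn
      have h1 : ∃ y', stU M E (2 ^ l * dn l x) y' ∧ M x y' := by
        by_contra h
        have : z2 x l = N + 1 := dif_neg h
        omega
      have h2 : ∃ x', 2 ^ l * up l (V y + 1) ≤ x' ∧ M x' y := by
        by_contra h
        have : t2 y l = N + 1 := dif_neg h
        omega
      have hz : z2 x l = Nat.find h1 := dif_pos h1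
      have ht : t2 y l = Nat.find h2 := dif_pos h2
      obtain ⟨a1, a2⟩ := Nat.find_spec h1
      obtain ⟨b1, b2⟩ := Nat.find_spec h2
      rw [← hz] at a1 a2
      rw [← ht, e] at b1
      rw [← ht] at b2
      have hzy' : z2 x l < y := by
        rcases Nat.lt_or_ge (z2 x l) y with h | h
        · exact h
        · exact absurd (by have : z2 x l = y := le_antisymm hzy h; rw [← this]; exact a2) hMn
      have htx' : t2 y l < x := by
        rcases Nat.lt_or_ge (t2 y l) x with h | h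
        · exact h
        · exact absurd (by have : t2 y l = x := le_antisymm htx h; rw [← this]; exact b2) hMn
      obtain ⟨g1, g2, h3, h4, x0, y0, h5, h6, h7, h8, h9, h10⟩ := a1
      exact hP x0 g1 (t2 y l) x y0 g2 (z2 x l) y h5 (h3.trans b1) htx' h6 h4 hzy' h7 h8 h9 h10
        b2 a2 hE hMn
    · intro hMxy
      have hxV' : V y + 1 ≤ x := by omega
      obtain ⟨l, hl, e⟩ := exists_level (L := L) (Nat.le_add_left 1 (V y)) hxV'
        (lt_of_le_of_lt hxN hL)
      obtain ⟨X1, X2⟩ := hXU l e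
      have hUX : stU M E (2 ^ l * dn l x) y := by
        by_contra h
        have := hVge _ (X2.trans hxN) h
        omega
      refine ⟨l, hl, e, ?_, ?_⟩
      · have h1 : ∃ y', stU M E (2 ^ l * dn l x) y' ∧ M x y' := ⟨y, hUX, hMxy⟩
        have hz : z2 x l = Nat.find h1 := dif_pos h1
        rw [hz]
        exact Nat.find_min' h1 ⟨hUX, hMxy⟩
      · have h2 : ∃ x', 2 ^ l * up l (V y + 1) ≤ x' ∧ M x' y := ⟨x, by rw [e]; exact X2, hMxy⟩
        have ht : t2 y l = Nat.find h2 := dif_pos h2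
        rw [ht]
        exact Nat.find_min' h2 ⟨by rw [e]; exact X2, hMxy⟩

end UDGConv
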