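import Pool.Agent.Lib.UDGConv.Defs

/-! Halving with rounding (module of `UDGConv`; paper section 4, dyadic choice). -/

namespace UDGConv

/-- Take the largest `l` with `up l x ≤ dn l v` (true for `l = 0`, false for `l = L` since
`dn L v = 0 < 1 ≤ up L x`). If `up l x < dn l v` then `(up l x + 1) / 2 ≤ dn l v / 2`. -/
theorem exists_level {L x v : ℕ} (hx : 1 ≤ x) (hxv : x ≤ v) (hv : v < 2 ^ L) :
    ∃ l < L, up l x = dn l v := by
  by_contra hne
  push Not at hne
  have h1 : ∀ l, 1 ≤ up l x := by
    intro l
    induction l with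
    | zero => simpa [up] using hx
    | succ l ih => simp only [up]; omega
  have h2 : ∀ l, dn l v = v / 2 ^ l := by
    intro l
    induction l with
    | zero => simp [dn]
    | succ l ih => simp only [dn]; rw [ih, Nat.div_div_eq_div_mul, pow_succ]
  have h3 : ∀ l, l ≤ L → up l x ≤ dn l v := by
    intro l
    induction l with
    | zero => intro _; simpa [up, dn] using hxv
    | succ l ih =>
      intro hl
      have h4 := ih (by omega)
      have h5 := hne l (by omega)
      simp only [up, dn]
      omega
  have h6 := h3 L le_rfl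
  rw [h2 L, Nat.div_eq_of_lt hv] at h6
  have := h1 L
  omega

theorem le_up (l x : ℕ) : x ≤ 2 ^ l * up l x := by
  induction l with
  | zero => simp [up]
  | succ l ih =>
    simp only [up]
    have h : up l x ≤ 2 * ((up l x + 1) / 2) := by omega
    calc x ≤ 2 ^ l * up l x := ih
      _ ≤ 2 ^ l * (2 * ((up l x + 1) / 2)) := Nat.mul_le_mul_left _ h
      _ = 2 ^ (l + 1) * ((up l x + 1) / 2) := by rw [pow_succ]; ring

theorem dn_le (l v : ℕ) : 2 ^ l * dn l v ≤ v := by
  induction l with
  | zero => simp [dn]
  | succ l ih =>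
    simp only [dn]
    have h : 2 * (dn l v / 2) ≤ dn l v := by omega
    calc 2 ^ (l + 1) * (dn l v / 2) = 2 ^ l * (2 * (dn l v / 2)) := by rw [pow_succ]; ring
      _ ≤ 2 ^ l * dn l v := Nat.mul_le_mul_left _ h
      _ ≤ v := ih

end UDGConv
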